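import Pool.Agent.Lib.MP_d66326_al.KClass

set_option autoImplicit false

/-!
Criteria for membership in the class `K`.
-/

namespace Pool.Agent.Lib.MP_d66326_al

open LaurentPolynomial Polynomial

section

variable {V : Type*} [Group V] {χ : V →* Multiplicative ℤ}

/-- It suffices to check the module condition for all elements outside the kernel. -/
lemma InK.of_forall (hV : Group.FG V) (hc : KerComm χ) {g0 : V} (hg0 : χ g0 ≠ 1) (n0 : Ab χ hc)
    (h : ∀ u : V, χ u ≠ 1 → ∀ f : ℤ[T;T⁻¹], rho hc u f n0 = 0 → f = 0) : InK V := by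
  obtain ⟨z, hz⟩ : ∃ z, z ∈ χ.range ∧ ∀ w ∈ χ.range, ∃ k : ℤ, w = z ^ k := by
    have hcyc : IsCyclic χ.range := inferInstance
    obtain ⟨⟨z, hz⟩, hgen⟩ := hcyc.exists_generator
    refine ⟨z, hz, fun w hw => ?_⟩
    obtain ⟨k, hk⟩ := hgen ⟨w, hw⟩
    refine ⟨k, ?_⟩
    have := congrArg Subtype.val hk
    simpa using this.symm
  obtain ⟨⟨t, rfl⟩, hgen⟩ := hz
  have ht : χ t ≠ 1 := by
    intro ht
    obtain ⟨k, hk⟩ := hgen _ ⟨g0, rfl⟩
    rw [ht, one_zpow] at hk
    exact hg0 hk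
  exact ⟨hV, χ, hc, t, n0, ht, fun g => hgen _ ⟨g, rfl⟩, h t ht⟩

lemma conjEnd_eq_of_eq (hc : KerComm χ) {v w : V} (h : χ v = χ w) :
    conjEnd hc v = conjEnd hc w := by
  apply LinearMap.ext
  intro a
  apply Ab.ext
  rw [conjEnd_val, conjEnd_val]
  have h1 : χ (w⁻¹ * v) = 1 := by rw [map_mul, map_inv, h, inv_mul_cancel]
  have h2 := hc (w⁻¹ * v) a.val h1 (Ab.map_val a)
  calc v * a.val * v⁻¹ = w * ((w⁻¹ * v) * a.val) * v⁻¹ := by group
    _ = w * (a.val * (w⁻¹ * v)) * v⁻¹ := by rw [h2]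
    _ = w * a.val * w⁻¹ := by group

/-- the substitution `T ↦ T ^ d` -/
noncomputable def dil (d : ℤ) : ℤ[T;T⁻¹] →+* ℤ[T;T⁻¹] :=
  AddMonoidAlgebra.mapDomainRingHom ℤ (AddMonoidHom.mulLeft d)

lemma dil_T (d n : ℤ) : dil d (T n) = T (d * n) := by
  change AddMonoidAlgebra.mapDomain _ (AddMonoidAlgebra.single n 1) = _
  rw [AddMonoidAlgebra.mapDomain_single]
  rfl

lemma dil_C (d n : ℤ) : dil d (C n) = (C n : ℤ[T;T⁻¹]) := by
  have : (C n : ℤ[T;T⁻¹]) = ((n : ℤ) : ℤ[T;T⁻¹]) := by simp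
  rw [this, map_intCast]

lemma dil_injective {d : ℤ} (hd : d ≠ 0) : Function.Injective (dil d) := by
  apply AddMonoidAlgebra.mapDomain_injective
  intro a b hab
  exact mul_left_cancel₀ hd hab

lemma rho_dil (hc : KerComm χ) {u t : V} {d : ℤ} (h : χ u = χ t ^ d) (f : ℤ[T;T⁻¹])
    (a : Ab χ hc) : rho hc u f a = rho hc t (dil d f) a := by
  induction f using LaurentPolynomial.induction_on' with
  | add p q hp hq => rw [map_add, map_add, map_add, LinearMap.add_apply, LinearMap.add_apply, hp, hq]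
  | C_mul_T n m =>
    rw [map_mul, map_mul, map_mul, Module.End.mul_apply, Module.End.mul_apply, dil_C, rho_C, rho_C,
      dil_T, rho_T, rho_T, conjEnd_eq_of_eq hc (v := u ^ n) (w := t ^ (d * n))
      (by rw [map_zpow, map_zpow, h, zpow_mul])]

/-- comparison of the actions for a subgroup -/
lemma rho_sub (hc : KerComm χ) (H : Subgroup V) (hc' : KerComm (χ.comp H.subtype)) (u : H)
    (n' : Ab (χ.comp H.subtype) hc') (n : Ab χ hc) (hn : (n'.val : V) = n.val) (f : ℤ[T;T⁻¹]) :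
    ((rho hc' u f n').val : V) = (rho hc (u : V) f n).val := by
  induction f using LaurentPolynomial.induction_on' with
  | add p q hp hq =>
    rw [map_add, map_add, LinearMap.add_apply, LinearMap.add_apply, Ab.val_add, Ab.val_add,
      Subgroup.coe_mul, hp, hq]
  | C_mul_T k m =>
    rw [map_mul, map_mul, Module.End.mul_apply, Module.End.mul_apply, rho_C, rho_C, Ab.val_zsmul,
      Ab.val_zsmul, rho_T_val, rho_T_val, ← hn]
    simp

lemma KerComm.sub (hc : KerComm χ) (H : Subgroup V) : KerComm (χ.comp H.subtype) := by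
  intro a b ha hb
  apply Subtype.ext
  exact hc a b ha hb

/-- a criterion for a subgroup of a group in `K` to be in `K` -/
lemma InK.sub (hc : KerComm χ) {t : V} {n : Ab χ hc}
    (htg : ∀ g, ∃ k : ℤ, χ g = χ t ^ k) (hn : ∀ f : ℤ[T;T⁻¹], rho hc t f n = 0 → f = 0)
    (H : Subgroup V) (hH : Group.FG H) {g0 : V} (hg0 : g0 ∈ H) (hχ : χ g0 ≠ 1)
    (r : ℤ[T;T⁻¹]) (hr : r ≠ 0) (hrn : (rho hc t r n).val ∈ H) : InK H := by
  have hc' := hc.sub H
  let n0 : Ab (χ.comp H.subtype) hc' := Ab.mk ⟨_, hrn⟩ (Ab.map_val _)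
  have hn0 : (n0.val : V) = (rho hc t r n).val := rfl
  refine InK.of_forall (χ := χ.comp H.subtype) hH hc' (g0 := ⟨g0, hg0⟩) hχ n0 ?_
  intro u hu f hf
  have h1 := rho_sub hc H hc' u n0 (rho hc t r n) hn0 f
  rw [hf] at h1
  have h2 : rho hc (u : V) f (rho hc t r n) = 0 := by
    apply Ab.ext
    rw [← h1]; rfl
  obtain ⟨d, hd⟩ := htg (u : V)
  have hd0 : d ≠ 0 := by
    rintro rfl
    rw [zpow_zero] at hd
    exact hu hd
  rw [rho_dil hc hd, ← Module.End.mul_apply, ← map_mul] at h2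
  have h3 := hn _ h2
  rcases mul_eq_zero.mp h3 with h4 | h4
  · apply dil_injective hd0
    rw [h4, map_zero]
  · exact absurd h4 hr

end

end Pool.Agent.Lib.MP_d66326_al
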