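import Pool.Agent.Lib.MP_d66326_al.BRStruct
import Pool.Agent.Lib.MP_d66326_al.KSub

set_option autoImplicit false

/-!
Subgroups of the Baumslag-Remeslennikov group in the class `K`.
-/

namespace Pool.Agent.Lib.MP_d66326_al

open LaurentPolynomial Polynomial

namespace BR

section

variable {K : Type*} [Field K] (x y : Kˣ) (hxy : (y : K) = 1 + x)

/-- the translation part of the elements of `M` -/
def tr (g : BR) : K := aff x y hxy g 0

lemma lam_of_mem {m : BR} (hm : m ∈ M) : lam x y m = 1 := by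
  rw [lam_apply, (mem_M.mp hm).1, (mem_M.mp hm).2]; simp

lemma tr_mul {m m' : BR} (hm : m ∈ M) : tr x y hxy (m * m') = tr x y hxy m + tr x y hxy m' := by
  rw [tr, map_mul, Equiv.Perm.mul_apply, aff_apply, lam_of_mem x y hm, Units.val_one, one_mul,
    add_comm]
  rfl

lemma tr_one : tr x y hxy 1 = 0 := by
  rw [tr, map_one, Equiv.Perm.one_apply]

lemma tr_inv {m : BR} (hm : m ∈ M) : tr x y hxy m⁻¹ = - tr x y hxy m := by
  have := tr_mul x y hxy (m := m) (m' := m⁻¹) hm
  rw [mul_inv_cancel, tr_one] at this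
  linear_combination -this

lemma tr_zpow {m : BR} (hm : m ∈ M) (n : ℤ) : tr x y hxy (m ^ n) = n * tr x y hxy m := by
  have hnat : ∀ n : ℕ, tr x y hxy (m ^ n) = n * tr x y hxy m := by
    intro n
    induction n with
    | zero => simp [tr_one]
    | succ n ih =>
      rw [pow_succ, tr_mul x y hxy (M.pow_mem hm n), ih]; push_cast; ring
  obtain ⟨k, rfl | rfl⟩ := Int.eq_nat_or_neg n
  · rw [zpow_natCast, hnat]; push_cast; ring
  · rw [zpow_neg, zpow_natCast, tr_inv x y hxy (M.pow_mem hm k), hnat]; push_cast; ring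

lemma tr_conj {m : BR} (hm : m ∈ M) (g : BR) :
    tr x y hxy (g * m * g⁻¹) = (lam x y g : K) * tr x y hxy m := by
  rw [tr, map_mul, map_mul, Equiv.Perm.mul_apply, Equiv.Perm.mul_apply, aff_apply x y hxy g,
    aff_apply x y hxy m, lam_of_mem x y hm, Units.val_one, one_mul, mul_add]
  have h1 : aff x y hxy g (aff x y hxy g⁻¹ 0) = 0 := by
    rw [← Equiv.Perm.mul_apply, ← map_mul, mul_inv_cancel, map_one, Equiv.Perm.one_apply]
  rw [aff_apply] at h1
  rw [tr]
  linear_combination h1

lemma tr_a : tr x y hxy a = 1 := by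
  rw [tr, aff, lift_a, addPerm_apply, add_zero]

end

/-- the unit `X` -/
noncomputable def uX : QXˣ := Units.mk0 RatFunc.X qx_X_ne_zero

/-- the unit `1 + X` -/
noncomputable def uY : QXˣ := Units.mk0 (1 + RatFunc.X) qx_one_add_X_ne_zero

lemma uY_val : (uY : QX) = 1 + uX := rfl

/-- the translation part over the field of rational functions -/
noncomputable def trq : BR → QX := tr uX uY uY_val

/-- the linear part over the field of rational functions -/
noncomputable def lamq : BR →* QXˣ := lam uX uY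

lemma rho_trq (H : Subgroup BR) (χ' : H →* Multiplicative ℤ) (hc : KerComm χ')
    (hker : ∀ h : H, χ' h = 1 → (h : BR) ∈ M) (u : H) (n : Ab χ' hc) (f : ℤ[T;T⁻¹]) :
    trq ((rho hc u f n).val : H) = ev (lamq u) f * trq (n.val : H) := by
  have hM : ∀ n : Ab χ' hc, ((n.val : H) : BR) ∈ M := fun n => hker _ (Ab.map_val n)
  induction f using LaurentPolynomial.induction_on' with
  | add p q hp hq =>
    rw [map_add, map_add, LinearMap.add_apply, Ab.val_add, Subgroup.coe_mul, add_mul, ← hp, ← hq]
    exact tr_mul _ _ _ (hM _)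
  | C_mul_T m k =>
    rw [map_mul, map_mul, Module.End.mul_apply, rho_C, Ab.val_zsmul, Subgroup.coe_zpow, ev_C, ev_T]
    have h1 : trq ((((rho hc u (T m) n).val : H) : BR) ^ k) =
        (k : QX) * trq ((rho hc u (T m) n).val : H) := tr_zpow _ _ _ (hM _) k
    have h2 : trq ((rho hc u (T m) n).val : H) = ((lamq u ^ m : QXˣ) : QX) * trq (n.val : H) := by
      rw [rho_T_val]
      have := tr_conj uX uY uY_val (hM n) ((u : BR) ^ m)
      rw [map_zpow] at this
      exact this
    rw [mul_assoc, ← h2]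
    exact h1

/-- subgroups of the Baumslag-Remeslennikov group in the class `K` -/
lemma inK_of (H : Subgroup BR) (hH : Group.FG H) (χ' : H →* Multiplicative ℤ)
    (hker : ∀ h : H, χ' h = 1 ↔ (h : BR) ∈ M) {g0 : BR} (hg0 : g0 ∈ H) (hg0M : g0 ∉ M)
    {n0 : BR} (hn0 : n0 ∈ H) (hn0M : n0 ∈ M) (hn : trq n0 ≠ 0) : InK H := by
  have hc : KerComm χ' := by
    intro p q hp hq
    apply Subtype.ext
    exact M_comm _ ((hker p).mp hp) _ ((hker q).mp hq)
  let n1 : Ab χ' hc := Ab.mk ⟨n0, hn0⟩ ((hker _).mpr hn0M)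
  refine InK.of_forall (χ := χ') hH hc (g0 := ⟨g0, hg0⟩) (fun h => hg0M ((hker _).mp h)) n1 ?_
  intro u hu f hf
  have h1 := rho_trq H χ' hc (fun h => (hker h).mp) u n1 f
  rw [hf] at h1
  have h2 : trq (((0 : Ab χ' hc).val : H) : BR) = 0 := tr_one _ _ _
  rw [h2] at h1
  rcases mul_eq_zero.mp h1.symm with h3 | h3
  · have huM : (u : BR) ∉ M := fun h => hu ((hker u).mpr h)
    refine ev_eq_zero (p := -(Multiplicative.toAdd (chiT u)))
      (q := -(Multiplicative.toAdd (chiS u))) ?_ ?_ h3
    · by_contra hcon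
      push Not at hcon
      apply huM
      rw [mem_M]
      constructor
      · apply Multiplicative.toAdd.injective
        rw [toAdd_one]; omega
      · apply Multiplicative.toAdd.injective
        rw [toAdd_one]; omega
    · rw [lamq, lam_apply, Units.val_mul, Units.val_zpow_eq_zpow_val, Units.val_zpow_eq_zpow_val,
        mul_comm]
      rfl
  · exact absurd h3 hn

end BR

end Pool.Agent.Lib.MP_d66326_al
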