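import Pool.Agent.Lib.MP_d66326_al.KClass

set_option autoImplicit false

/-!
A surjection to `ℤ` with finitely generated kernel gives a nontrivial splitting (an HNN extension
over the kernel), whose Bass-Serre tree is a line.
-/

namespace Pool.Agent.Lib.MP_d66326_al

open SimpleGraph

/-- the simplicial line -/
def lineTree : SimpleGraph ℤ where
  Adj i j := i = j + 1 ∨ j = i + 1
  symm := ⟨by intro i j h; exact h.symm⟩
  loopless := ⟨by intro i h; omega⟩

lemma lineTree_adj (i j : ℤ) : lineTree.Adj i j ↔ (i = j + 1 ∨ j = i + 1) := Iff.rfl

lemma lineTree_isTree : lineTree.IsTree := by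
  have hreach : ∀ i : ℤ, lineTree.Reachable 0 i := by
    intro i
    induction i using Int.induction_on with
    | zero => exact Reachable.refl _
    | succ k ih =>
      refine ih.trans ?_
      apply Adj.reachable
      rw [lineTree_adj]; right; rfl
    | pred k ih =>
      refine ih.trans ?_
      apply Adj.reachable
      rw [lineTree_adj]; left; ring
  have hconn : lineTree.Connected := by
    have : lineTree.Preconnected := fun i j => (hreach i).symm.trans (hreach j)
    exact { preconnected := this, nonempty := ⟨0⟩ }
  refine ⟨hconn, ?_⟩
  rw [isAcyclic_iff_forall_adj_isBridge]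
  have key : ∀ i : ℤ, lineTree.IsBridge s(i, i + 1) := by
    intro i
    rw [isBridge_iff]
    have inv : ∀ {a b : ℤ} (p : (lineTree.deleteEdges {s(i, i + 1)}).Walk a b),
        (a ≤ i ↔ b ≤ i) := by
      intro a b p
      induction p with
      | nil => exact Iff.rfl
      | @cons u v w h p ih =>
        rw [← ih]
        rw [deleteEdges_adj, lineTree_adj] at h
        obtain ⟨h1, h2⟩ := h
        rcases h1 with h1 | h1
        · have hne : v ≠ i := by
            rintro rfl
            apply h2
            rw [h1, Set.mem_singleton_iff, Sym2.eq_swap]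
          omega
        · have hne : u ≠ i := by
            rintro rfl
            apply h2
            rw [h1, Set.mem_singleton_iff]
          omega
    rintro ⟨p⟩
    have := inv p
    omega
  intro v w hvw
  rw [lineTree_adj] at hvw
  rcases hvw with rfl | rfl
  · rw [Sym2.eq_swap]; exact key w
  · exact key v

/-- the splitting given by a surjection to `ℤ` with finitely generated kernel -/
noncomputable def splittingOfHom {G : Type} [Group G] (ψ : G →* Multiplicative ℤ)
    (hψ : Function.Surjective ψ) (hfg : ψ.ker.FG) : Splitting FGClass G :=
  letI act : MulAction G ℤ := MulAction.compHom ℤ ψ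
  have hact : ∀ (g : G) (i : ℤ), g • i = Multiplicative.toAdd (ψ g) + i := fun g i => rfl
  { V := ℤ
    action := act
    T := lineTree
    isTree := lineTree_isTree
    adj_smul := by
      intro g x y h
      rw [lineTree_adj] at *
      rw [hact, hact]
      omega
    no_inversion := by
      intro g x y h h'
      rw [lineTree_adj] at h
      rw [hact, hact] at h'
      omega
    finite_vertices := by
      refine ⟨{0}, Set.finite_singleton 0, fun x => ⟨0, rfl, ?_⟩⟩
      obtain ⟨g, hg⟩ := hψ (Multiplicative.ofAdd x)
      refine ⟨g, ?_⟩
      rw [hact, hg]; simp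
    finite_edges := by
      refine ⟨{(0, 1), (1, 0)}, (Set.finite_singleton _).insert _, fun x y h => ?_⟩
      rw [lineTree_adj] at h
      rcases h with h | h
      · obtain ⟨g, hg⟩ := hψ (Multiplicative.ofAdd y)
        refine ⟨(1, 0), Set.mem_insert_of_mem _ rfl, g, ?_, ?_⟩
        · rw [hact, hg, toAdd_ofAdd]; exact h.symm
        · rw [hact, hg, toAdd_ofAdd, add_zero]
      · obtain ⟨g, hg⟩ := hψ (Multiplicative.ofAdd x)
        refine ⟨(0, 1), Set.mem_insert _ _, g, ?_, ?_⟩
        · rw [hact, hg, toAdd_ofAdd, add_zero]
        · rw [hact, hg, toAdd_ofAdd]; exact h.symm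
    edge_mem := by
      intro x y _
      have hst : ∀ i : ℤ, MulAction.stabilizer G i = ψ.ker := by
        intro i
        ext g
        rw [MulAction.mem_stabilizer_iff, MonoidHom.mem_ker, hact]
        constructor
        · intro h
          apply Multiplicative.toAdd.injective
          rw [toAdd_one]; omega
        · intro h
          rw [h, toAdd_one, zero_add]
      rw [hst, hst, inf_idem]
      exact (Group.fg_iff_subgroup_fg _).mpr hfg
    nontrivial := by
      intro x
      obtain ⟨g, hg⟩ := hψ (Multiplicative.ofAdd 1)
      refine ⟨g, ?_⟩
      rw [hact, hg, toAdd_ofAdd]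
      omega }

/-- every group in the class `K` splits nontrivially over a finitely generated group -/
theorem InK.nonempty_splitting {G : Type} [Group G] (hK : InK G) :
    Nonempty (Splitting FGClass G) := by
  obtain ⟨ψ, h1, h2⟩ := hK.exists_hom
  exact ⟨splittingOfHom ψ h1 h2⟩

end Pool.Agent.Lib.MP_d66326_al
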