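import Pool.Agent.Lib.MP_d66326_al.BRSplit
import Pool.Agent.Lib.MP_d66326_al.LineSplitting

set_option autoImplicit false

/-!
The Baumslag-Remeslennikov group is not strongly accessible over finitely generated groups.
-/

namespace Pool.Agent.Lib.MP_d66326_al

namespace BR

/-- a homomorphism onto the integers -/
def psi : BR →* Multiplicative ℤ := chiS / chiT

lemma psi_apply (g : BR) : psi g = chiS g / chiT g := rfl

lemma psi_surjective : Function.Surjective psi := by
  intro z
  refine ⟨st (Multiplicative.toAdd z) 0, ?_⟩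
  rw [psi_apply, chiS_st, chiT_st]
  simp

lemma psi_ker_fg : psi.ker.FG := by
  classical
  refine ⟨{a, t⁻¹ * a * t, st 1 1}, ?_⟩
  set W := Subgroup.closure ((({a, t⁻¹ * a * t, st 1 1} : Finset BR)) : Set BR) with hW
  have ha : a ∈ W := Subgroup.subset_closure (by simp)
  have hb : t⁻¹ * a * t ∈ W := Subgroup.subset_closure (by simp)
  have hst : st 1 1 ∈ W := Subgroup.subset_closure (by simp)
  have hstk : ∀ k : ℤ, st k k ∈ W := by
    intro k
    have hc : Commute s t := st_comm
    have : st k k = (st 1 1) ^ k := by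
      rw [st, st, zpow_one, zpow_one, hc.mul_zpow]
    rw [this]
    exact W.zpow_mem hst k
  have hb1 : t⁻¹ * a * t = b 0 (-1) := by simp [b, st]
  -- the relation obtained by conjugating with `s * t`
  have hconj : ∀ k : ℤ, (st 1 1)⁻¹ * b 0 (-k) * st 1 1 = b 0 (-(k + 1)) * b 0 (-(k + 2)) := by
    intro k
    have e0 : (st 1 1)⁻¹ = (st 0 (-1)) * s⁻¹ := by
      have e1 : s⁻¹ = st (-1) 0 := by simp [st]
      rw [e1, st_mul, st_inv]; rfl
    have e2 : st 1 1 = s * (st 0 (-1))⁻¹ := by
      rw [← inv_inj, e0]; group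
    calc (st 1 1)⁻¹ * b 0 (-k) * st 1 1
        = st 0 (-1) * (s⁻¹ * b 0 (-k) * s) * (st 0 (-1))⁻¹ := by
          conv_lhs => rw [e0]
          rw [e2]; group
      _ = (st 0 (-1) * b 0 (-k) * (st 0 (-1))⁻¹) *
          (st 0 (-1) * b 0 (-(k + 1)) * (st 0 (-1))⁻¹) := by rw [conj_s_b]; group
      _ = b 0 (-(k + 1)) * b 0 (-(k + 2)) := by
          rw [conj_b, conj_b]
          congr 2 <;> ring
  have hup : ∀ k : ℕ, b 0 (-(k : ℤ)) ∈ W ∧ b 0 (-((k : ℤ) + 1)) ∈ W := by
    intro k
    induction k with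
    | zero =>
      refine ⟨?_, ?_⟩
      · simpa [b_zero] using ha
      · simpa [hb1] using hb
    | succ k ih =>
      obtain ⟨h1, h2⟩ := ih
      push_cast
      refine ⟨h2, ?_⟩
      have h3 := hconj k
      have h4 : b 0 (-((k : ℤ) + 1 + 1)) = (b 0 (-((k : ℤ) + 1)))⁻¹ *
          ((st 1 1)⁻¹ * b 0 (-k) * st 1 1) := by
        rw [h3, inv_mul_cancel_left]; congr 1
      rw [h4]
      exact W.mul_mem (W.inv_mem h2) (W.mul_mem (W.mul_mem (W.inv_mem hst) h1) hst)
  have hdown : ∀ k : ℕ, b 0 (k : ℤ) ∈ W ∧ b 0 ((k : ℤ) - 1) ∈ W := by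
    intro k
    induction k with
    | zero =>
      refine ⟨?_, ?_⟩
      · simpa [b_zero] using ha
      · simpa [hb1] using hb
    | succ k ih =>
      obtain ⟨h1, h2⟩ := ih
      push_cast
      have h3 := hconj (-((k : ℤ) + 1))
      have h4 : b 0 ((k : ℤ) + 1) = st 1 1 * (b 0 (k : ℤ) * b 0 ((k : ℤ) - 1)) * (st 1 1)⁻¹ := by
        have e1 : (-(-((k : ℤ) + 1))) = (k : ℤ) + 1 := by ring
        have e2 : (-(-((k : ℤ) + 1) + 1)) = (k : ℤ) := by ring
        have e3 : (-(-((k : ℤ) + 1) + 2)) = (k : ℤ) - 1 := by ring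
        rw [e1, e2, e3] at h3
        rw [← h3]; group
      refine ⟨?_, ?_⟩
      · rw [h4]
        exact W.mul_mem (W.mul_mem hst (W.mul_mem h1 h2)) (W.inv_mem hst)
      · have : (k : ℤ) + 1 - 1 = k := by ring
        rw [this]
        exact h1
  have hall : ∀ k : ℤ, b 0 k ∈ W := by
    intro k
    obtain ⟨n, rfl | rfl⟩ := Int.eq_nat_or_neg k
    · exact (hdown n).1
    · exact (hup n).1
  have hall2 : ∀ p q : ℤ, b p q ∈ W := by
    intro p q
    have h1 : st p p * b 0 (q - p) * (st p p)⁻¹ = b p q := by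
      rw [conj_b]; congr 1 <;> ring
    rw [← h1]
    exact W.mul_mem (W.mul_mem (hstk p) (hall _)) (W.inv_mem (hstk p))
  have hUW : U ≤ W := by
    rw [U, Subgroup.closure_le]
    rintro _ ⟨⟨i, j⟩, rfl⟩
    exact hall2 i j
  apply le_antisymm
  · rw [hW, Subgroup.closure_le]
    intro x hx
    simp only [Finset.coe_insert, Finset.coe_singleton, Set.mem_insert_iff,
      Set.mem_singleton_iff] at hx
    rw [SetLike.mem_coe, MonoidHom.mem_ker, psi_apply]
    rcases hx with rfl | rfl | rfl
    · simp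
    · simp
    · rw [chiS_st, chiT_st]; simp
  · intro g hg
    obtain ⟨m, hm, hgm⟩ := exists_M g
    rw [MonoidHom.mem_ker, psi_apply, div_eq_one] at hg
    rw [hgm, hg]
    exact W.mul_mem (hUW (by rw [U_eq_M]; exact hm)) (hstk _)

lemma nonempty_splitting : Nonempty (Splitting FGClass BR) :=
  ⟨splittingOfHom psi psi_surjective psi_ker_fg⟩

end BR

/-- no hierarchy of a group in the class `K` terminates -/
theorem InK.not_terminatesWithin (n : ℕ) :
    ∀ (V : Type) [Group V], InK V → ¬ TerminatesWithin FGClass n V := by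
  induction n with
  | zero =>
    intro V _ hV h
    exact (not_isEmpty_iff.mpr hV.nonempty_splitting) h
  | succ n ih =>
    intro V _ hV h
    rcases h with h | ⟨S, hS⟩
    · exact (not_isEmpty_iff.mpr hV.nonempty_splitting) h
    · obtain ⟨x, hx⟩ := hV.exists_stabilizer S
      exact ih _ hx (hS x)

/-- no hierarchy of the Baumslag-Remeslennikov group terminates -/
theorem BR.not_terminatesWithin (n : ℕ) : ¬ TerminatesWithin FGClass n BR := by
  cases n with
  | zero => exact fun h => (not_isEmpty_iff.mpr BR.nonempty_splitting) h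
  | succ n =>
    rintro (h | ⟨S, hS⟩)
    · exact (not_isEmpty_iff.mpr BR.nonempty_splitting) h
    · obtain ⟨x, hx⟩ := BR.exists_stabilizer S
      exact InK.not_terminatesWithin n _ hx (hS x)

/-- the Baumslag-Remeslennikov group is not strongly accessible over the class of finitely
generated groups -/
theorem BR.not_stronglyAccessible : ¬ StronglyAccessible FGClass BR :=
  fun ⟨n, hn⟩ => BR.not_terminatesWithin n hn

end Pool.Agent.Lib.MP_d66326_al
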