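import Pool.Agent.Lib.MP_d66326_al.Transc

set_option autoImplicit false

/-!
The Baumslag-Remeslennikov group.
-/

namespace Pool.Agent.Lib.MP_d66326_al

/-- names for the three generators -/
inductive Gen : Type
  | a : Gen
  | s : Gen
  | t : Gen

/-- a family indexed by the generators -/
def Gen.fam {H : Type*} (a' s' t' : H) : Gen → H
  | .a => a'
  | .s => s'
  | .t => t'

instance : Finite Gen := by
  apply Finite.of_injective (Gen.fam (0 : Fin 3) 1 2)
  intro x y h
  cases x <;> cases y <;> first | rfl | exact absurd h (by decide)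

/-- The three defining relators, for the relations `s t = t s`, `a (t⁻¹ a t) = (t⁻¹ a t) a` and
`s⁻¹ a s = a (t⁻¹ a t)`. -/
def brRels : Set (FreeGroup Gen) :=
  let a : FreeGroup Gen := FreeGroup.of Gen.a
  let s : FreeGroup Gen := FreeGroup.of Gen.s
  let t : FreeGroup Gen := FreeGroup.of Gen.t
  {(s * t) * (t * s)⁻¹,
    (a * (t⁻¹ * a * t)) * ((t⁻¹ * a * t) * a)⁻¹,
    (s⁻¹ * a * s) * (a * (t⁻¹ * a * t))⁻¹}

instance : Finite brRels := by
  apply Set.Finite.to_subtype
  exact ((Set.finite_singleton _).insert _).insert _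

/-- the Baumslag-Remeslennikov group -/
abbrev BR : Type := PresentedGroup brRels

namespace BR

/-- first generator -/
def a : BR := PresentedGroup.of Gen.a
/-- second generator -/
def s : BR := PresentedGroup.of Gen.s
/-- third generator -/
def t : BR := PresentedGroup.of Gen.t

lemma isFinitelyPresented : Group.IsFinitelyPresented BR := inferInstance

lemma st_comm : s * t = t * s := by
  rw [← mul_inv_eq_one]
  exact PresentedGroup.one_of_mem (rels := brRels) (Or.inl rfl)

lemma rel_a : a * (t⁻¹ * a * t) = (t⁻¹ * a * t) * a := by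
  rw [← mul_inv_eq_one]
  exact PresentedGroup.one_of_mem (rels := brRels) (Or.inr (Or.inl rfl))

lemma rel_s : s⁻¹ * a * s = a * (t⁻¹ * a * t) := by
  rw [← mul_inv_eq_one]
  exact PresentedGroup.one_of_mem (rels := brRels) (Or.inr (Or.inr rfl))

lemma gen (H : Subgroup BR) (ha : a ∈ H) (hs : s ∈ H) (ht : t ∈ H) (g : BR) : g ∈ H := by
  apply PresentedGroup.generated_by brRels H
  intro j
  cases j
  · exact ha
  · exact hs
  · exact ht

/-- homomorphisms are given by triples satisfying the relations -/
def lift {H : Type*} [Group H] (a' s' t' : H) (h1 : s' * t' = t' * s')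
    (h2 : a' * (t'⁻¹ * a' * t') = (t'⁻¹ * a' * t') * a')
    (h3 : s'⁻¹ * a' * s' = a' * (t'⁻¹ * a' * t')) : BR →* H :=
  PresentedGroup.toGroup (f := Gen.fam a' s' t') (by
    intro r hr
    rcases hr with rfl | rfl | hr
    · simp only [map_mul, map_inv, FreeGroup.lift_apply_of, Gen.fam]
      rw [mul_inv_eq_one, h1]
    · simp only [map_mul, map_inv, FreeGroup.lift_apply_of, Gen.fam]
      rw [mul_inv_eq_one, h2]
    · rw [Set.mem_singleton_iff] at hr
      subst hr
      simp only [map_mul, map_inv, FreeGroup.lift_apply_of, Gen.fam]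
      rw [mul_inv_eq_one, h3])

section

variable {H : Type*} [Group H] {a' s' t' : H} {h1 : s' * t' = t' * s'}
    {h2 : a' * (t'⁻¹ * a' * t') = (t'⁻¹ * a' * t') * a'}
    {h3 : s'⁻¹ * a' * s' = a' * (t'⁻¹ * a' * t')}

lemma lift_a : lift a' s' t' h1 h2 h3 a = a' := PresentedGroup.toGroup.of _
lemma lift_s : lift a' s' t' h1 h2 h3 s = s' := PresentedGroup.toGroup.of _
lemma lift_t : lift a' s' t' h1 h2 h3 t = t' := PresentedGroup.toGroup.of _

end

/-- the exponent sum of `s` -/
def chiS : BR →* Multiplicative ℤ :=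
  lift 1 (Multiplicative.ofAdd 1) 1 (mul_comm _ _) (mul_comm _ _) (by simp)

/-- the exponent sum of `t` -/
def chiT : BR →* Multiplicative ℤ :=
  lift 1 1 (Multiplicative.ofAdd 1) (mul_comm _ _) (mul_comm _ _) (by simp)

@[simp] lemma chiS_a : chiS a = 1 := lift_a
@[simp] lemma chiS_s : chiS s = Multiplicative.ofAdd 1 := lift_s
@[simp] lemma chiS_t : chiS t = 1 := lift_t
@[simp] lemma chiT_a : chiT a = 1 := lift_a
@[simp] lemma chiT_s : chiT s = 1 := lift_s
@[simp] lemma chiT_t : chiT t = Multiplicative.ofAdd 1 := lift_t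

section Affine

variable {K : Type*} [Field K]

/-- multiplication by a unit -/
def mulPerm : Kˣ →* Equiv.Perm K where
  toFun u := { toFun := fun z => u * z, invFun := fun z => (u⁻¹ : Kˣ) * z,
               left_inv := fun z => by simp, right_inv := fun z => by simp }
  map_one' := by ext z; simp
  map_mul' := by intro u v; ext z; simp [mul_assoc]

lemma mulPerm_apply (u : Kˣ) (z : K) : mulPerm u z = u * z := rfl

/-- translations -/
def addPerm (b : K) : Equiv.Perm K where
  toFun := fun z => b + z
  invFun := fun z => - b + z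
  left_inv := fun z => by simp
  right_inv := fun z => by simp

lemma addPerm_apply (b z : K) : addPerm b z = b + z := rfl

lemma addPerm_mul (b c : K) : addPerm b * addPerm c = addPerm (b + c) := by
  apply Equiv.ext
  intro z
  rw [Equiv.Perm.mul_apply, addPerm_apply, addPerm_apply, addPerm_apply, add_assoc]

lemma conj_addPerm (u : Kˣ) (b : K) :
    (mulPerm u)⁻¹ * addPerm b * mulPerm u = addPerm ((u⁻¹ : Kˣ) * b) := by
  rw [← map_inv]
  apply Equiv.ext
  intro z
  rw [Equiv.Perm.mul_apply, Equiv.Perm.mul_apply, mulPerm_apply, mulPerm_apply, addPerm_apply,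
    addPerm_apply, mul_add]
  congr 1
  rw [← mul_assoc, Units.inv_mul, one_mul]

variable (x y : Kˣ) (hxy : (y : K) = 1 + x)

/-- the affine action -/
def aff : BR →* Equiv.Perm K :=
  lift (addPerm 1) (mulPerm y⁻¹) (mulPerm x⁻¹)
    (by rw [← map_mul, ← map_mul, mul_comm])
    (by rw [conj_addPerm, addPerm_mul, addPerm_mul, add_comm])
    (by rw [conj_addPerm, conj_addPerm, addPerm_mul, inv_inv, inv_inv, mul_one, mul_one, hxy])

/-- the linear part of the affine action -/
def lam : BR →* Kˣ :=
  ((zpowersHom Kˣ y⁻¹).comp chiS) * ((zpowersHom Kˣ x⁻¹).comp chiT)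

lemma lam_apply (g : BR) : lam x y g =
    y ^ (-(Multiplicative.toAdd (chiS g))) * x ^ (-(Multiplicative.toAdd (chiT g))) := by
  rw [lam, MonoidHom.mul_apply]
  change y⁻¹ ^ (Multiplicative.toAdd (chiS g)) * x⁻¹ ^ (Multiplicative.toAdd (chiT g)) = _
  rw [inv_zpow', inv_zpow']

lemma aff_apply (g : BR) (z : K) : aff x y hxy g z = lam x y g * z + aff x y hxy g 0 := by
  let H : Subgroup BR :=
    { carrier := {g | ∀ z : K, aff x y hxy g z = lam x y g * z + aff x y hxy g 0}
      one_mem' := by intro z; simp
      mul_mem' := by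
        intro g h hg hh z
        rw [map_mul, Equiv.Perm.mul_apply, hh z, hg, Equiv.Perm.mul_apply, hg (aff x y hxy h 0),
          map_mul, Units.val_mul]
        ring
      inv_mem' := by
        intro g hg z
        have h1 := hg (aff x y hxy g⁻¹ z)
        have h2 := hg (aff x y hxy g⁻¹ 0)
        rw [← Equiv.Perm.mul_apply, ← map_mul, mul_inv_cancel, map_one, Equiv.Perm.one_apply]
          at h1 h2
        rw [map_inv (lam x y), Units.val_inv_eq_inv_val, ← sub_eq_iff_eq_add,
          inv_mul_eq_div, eq_div_iff (Units.ne_zero _)]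
        linear_combination h2 - h1 }
  have hg : g ∈ H := by
    apply gen H
    · intro z
      simp only [aff, lift_a, lam_apply, addPerm_apply]
      simp [add_comm]
    · intro z
      simp only [aff, lift_s, lam_apply, mulPerm_apply]
      simp
    · intro z
      simp only [aff, lift_t, lam_apply, mulPerm_apply]
      simp
  exact hg z

end Affine

end BR

end Pool.Agent.Lib.MP_d66326_al
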