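import Pool.Agent.Lib.MP_d66326_al.TreeAxis

set_option autoImplicit false

/-!
Elements fixing rays of a line.
-/

namespace Pool.Agent.Lib.MP_d66326_al

open SimpleGraph

variable {G : Type*} [Group G] {X : Type*} [MulAction G X] {T : SimpleGraph X}

/-- powers of a translation -/
lemma zpow_axis {L : ℤ → X} {f : G} {l : ℤ} (hfL : ∀ i, f • L i = L (i + l)) (k i : ℤ) :
    f ^ k • L i = L (i + k * l) := by
  have hnat : ∀ (k : ℕ) (i : ℤ), f ^ k • L i = L (i + k * l) := by
    intro k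
    induction k with
    | zero => intro i; simp
    | succ k ih =>
      intro i
      rw [pow_succ, mul_smul, hfL, ih]
      congr 1; push_cast; ring
  obtain ⟨m, rfl | rfl⟩ := Int.eq_nat_or_neg k
  · rw [zpow_natCast]; exact hnat m i
  · rw [zpow_neg, zpow_natCast, inv_smul_eq_iff, hnat]
    congr 1; ring

lemma inv_axis {L : ℤ → X} {f : G} {l : ℤ} (hfL : ∀ i, f • L i = L (i + l)) (i : ℤ) :
    f⁻¹ • L i = L (i - l) := by
  rw [inv_smul_eq_iff, hfL]
  congr 1; ring

/-- the fixed points on a line are convex -/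
lemma TreeAct.fix_line_between (h : TreeAct G X T) {L : ℤ → X} (hL : IsLine T L) {g : G}
    {i j k : ℤ} (hi : g • L i = L i) (hj : g • L j = L j) (h1 : i ≤ k) (h2 : k ≤ j) :
    g • L k = L k := by
  apply h.fix_between hi hj
  rw [hL, hL, hL]
  omega

/-- an element fixing a point of a line and points arbitrarily far up fixes a ray -/
lemma TreeAct.ray_fix (h : TreeAct G X T) {L : ℤ → X} (hL : IsLine T L) {g : G} {i : ℤ}
    (hi : g • L i = L i) (hg : ∀ K : ℤ, ∃ j, K ≤ j ∧ g • L j = L j) {k : ℤ} (hk : i ≤ k) :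
    g • L k = L k := by
  obtain ⟨j, hj1, hj2⟩ := hg k
  exact h.fix_line_between hL hi hj2 hk hj1

/-- Suppose that `g = m * f` where `m` fixes a ray in the line `L` and `f` translates `L` by `c`.
If `g` fixes a vertex of `L`, then `c = 0`. -/
lemma TreeAct.eq_zero_of_fix (h : TreeAct G X T) {L : ℤ → X} (hL : IsLine T L) {m f : G} {c : ℤ}
    (hm : ∀ K : ℤ, ∃ j, K ≤ j ∧ m • L j = L j) (hf : ∀ i, f • L i = L (i + c)) {i : ℤ}
    (hfix : (m * f) • L i = L i) : c = 0 := by
  obtain ⟨i0, -, hi0⟩ := hm 0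
  set k : ℤ := i0.natAbs + c.natAbs + i.natAbs + 1 with hk
  have h1 : m • L (k + c) = L (k + c) := h.ray_fix hL hi0 hm (by omega)
  have h2 : (m * f) • L k = L (k + c) := by rw [mul_smul, hf, h1]
  have h3 := h.dist_smul (m * f) (L i) (L k)
  rw [hfix, h2, hL, hL] at h3
  omega

/-- in this situation `g` fixes a ray in the line. -/
lemma TreeAct.fix_far_of_fix (h : TreeAct G X T) {L : ℤ → X} (hL : IsLine T L) {m f : G} {c : ℤ}
    (hm : ∀ K : ℤ, ∃ j, K ≤ j ∧ m • L j = L j) (hf : ∀ i, f • L i = L (i + c)) {i : ℤ}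
    (hfix : (m * f) • L i = L i) {k : ℤ} (hk : i ≤ k) : (m * f) • L k = L k := by
  have hc := h.eq_zero_of_fix hL hm hf hfix
  subst hc
  apply h.ray_fix hL hfix _ hk
  intro K
  obtain ⟨j, hj1, hj2⟩ := hm K
  exact ⟨j, hj1, by rw [mul_smul, hf, add_zero, hj2]⟩

end Pool.Agent.Lib.MP_d66326_al
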