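import Pool.Agent.Lib.MP_d66326_al.KSub
import Pool.Agent.Lib.MP_d66326_al.RayFix

set_option autoImplicit false

/-!
Every nontrivial splitting over a finitely generated group of a group in the class `K` has a
vertex group in the class `K`.
-/

namespace Pool.Agent.Lib.MP_d66326_al

open LaurentPolynomial Polynomial

section

variable {V : Type*} [Group V] {χ : V →* Multiplicative ℤ} {X : Type*} [MulAction V X]
  {Γ : SimpleGraph X}

/-- the kernel cannot fix an end and have a finitely generated stabilizer of an edge -/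
lemma no_ray (h : TreeAct V X Γ) (hc : KerComm χ) {t : V}
    (htg : ∀ g, ∃ k : ℤ, χ g = χ t ^ k) {n : Ab χ hc}
    (hn : ∀ f : ℤ[T;T⁻¹], rho hc t f n = 0 → f = 0)
    {L : ℤ → X} {l : ℤ} (hl : 0 < l) (hL : IsLine Γ L) (htL : ∀ i, t • L i = L (i + l))
    (hray : ∀ m : V, χ m = 1 → ∀ K : ℤ, ∃ i, K ≤ i ∧ m • L i = L i)
    (hfg : Group.FG ↥(MulAction.stabilizer V (L 0) ⊓ MulAction.stabilizer V (L 1))) : False := by
  classical
  set E := MulAction.stabilizer V (L 0) ⊓ MulAction.stabilizer V (L 1) with hE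
  have hEχ : ∀ g ∈ E, χ g = 1 := by
    intro g hg
    obtain ⟨k, a, hka⟩ := exists_decomp hc htg g
    have h1 : g • L 0 = L 0 := (Subgroup.mem_inf.mp hg).1
    rw [hka] at h1
    have h2 := h.eq_zero_of_fix hL (hray a.val (Ab.map_val a)) (zpow_axis htL k) h1
    have h3 : k = 0 := by
      rcases mul_eq_zero.mp h2 with h3 | h3
      · exact h3
      · omega
    rw [hka, h3]
    simp
  obtain ⟨S, hS⟩ : E.FG := (Group.fg_iff_subgroup_fg E).mp hfg
  have hSE : ∀ x ∈ S, x ∈ E := by
    intro x hx
    rw [← hS]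
    exact Subgroup.subset_closure hx
  set w : Finset (Ab χ hc) := S.attach.image (fun s => Ab.mk s.1 (hEχ _ (hSE _ s.2))) with hw
  have hspan : ∀ a : Ab χ hc, a.val ∈ E → a ∈ Submodule.span ℤ (w : Set (Ab χ hc)) := by
    have key : ∀ g ∈ Subgroup.closure (S : Set V), ∃ b : Ab χ hc,
        b ∈ Submodule.span ℤ (w : Set (Ab χ hc)) ∧ b.val = g := by
      intro g hg
      induction hg using Subgroup.closure_induction with
      | mem x hx =>
        refine ⟨Ab.mk x (hEχ _ (hSE _ hx)), Submodule.subset_span ?_, rfl⟩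
        rw [hw, Finset.coe_image]
        exact ⟨⟨x, hx⟩, by simp, rfl⟩
      | one => exact ⟨0, Submodule.zero_mem _, Ab.val_zero⟩
      | mul x y _ _ hx hy =>
        obtain ⟨a, ha, hax⟩ := hx
        obtain ⟨b, hb, hby⟩ := hy
        exact ⟨a + b, Submodule.add_mem _ ha hb, by rw [Ab.val_add, hax, hby]⟩
      | inv x _ hx =>
        obtain ⟨a, ha, hax⟩ := hx
        exact ⟨-a, Submodule.neg_mem _ ha, by rw [Ab.val_neg, hax]⟩
    intro a ha
    rw [← hS] at ha
    obtain ⟨b, hb, hba⟩ := key _ ha
    have : b = a := Ab.ext hba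
    rw [← this]
    exact hb
  -- the conjugates of `n` are in `E`
  obtain ⟨i0, -, hi0⟩ := hray n.val (Ab.map_val n) 0
  set k0 : ℕ := i0.natAbs with hk0
  have hconj : ∀ k : ℕ, k0 ≤ k → (rho hc t (T (-(k : ℤ))) n).val ∈ E := by
    intro k hk
    have hinv : ∀ i, (t ^ (-(k : ℤ)))⁻¹ • L i = L (i + k * l) := by
      intro i
      rw [← zpow_neg, neg_neg, zpow_axis htL]
    have hkl : i0 ≤ k * l := by
      have h1 : (k : ℤ) ≤ k * l := by nlinarith
      omega
    have hmem : ∀ i : ℤ, 0 ≤ i → (rho hc t (T (-(k : ℤ))) n).val • L i = L i := by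
      intro i hi
      rw [rho_T_val, mul_smul, mul_smul, hinv,
        h.ray_fix hL hi0 (hray n.val (Ab.map_val n)) (by omega : i0 ≤ i + k * l),
        zpow_axis htL]
      congr 1; ring
    rw [hE, Subgroup.mem_inf]
    exact ⟨hmem 0 le_rfl, hmem 1 (by omega)⟩
  -- linear independence
  set v : Fin (w.card + 1) → Ab χ hc := fun i => rho hc t (T (-((k0 + i : ℕ) : ℤ))) n with hv
  have hli : LinearIndependent ℤ v := by
    rw [Fintype.linearIndependent_iff]
    intro g hg i
    have h1 : rho hc t (∑ j, (C (g j) : ℤ[T;T⁻¹]) * T (-((k0 + j : ℕ) : ℤ))) n = 0 := by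
      rw [map_sum, LinearMap.sum_apply, ← hg]
      apply Finset.sum_congr rfl
      intro j _
      rw [map_mul, Module.End.mul_apply, rho_C]
    have h2 := hn _ h1
    have h3 := congrArg (fun f : ℤ[T;T⁻¹] => f.coeff (-((k0 + i : ℕ) : ℤ))) h2
    simp only [← single_eq_C_mul_T, AddMonoidAlgebra.coeff_sum, AddMonoidAlgebra.coeff_single,
      AddMonoidAlgebra.coeff_zero] at h3
    rw [Finset.sum_apply', Finset.sum_eq_single i] at h3
    · rw [Finsupp.single_eq_same] at h3
      exact h3
    · intro b _ hb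
      apply Finsupp.single_eq_of_ne
      intro heq
      apply hb
      apply Fin.ext
      omega
    · intro hi
      exact absurd (Finset.mem_univ i) hi
  have hle := linearIndependent_le_span_aux' v hli (w : Set (Ab χ hc)) (by
    rintro _ ⟨i, rfl⟩
    exact hspan _ (hconj _ (Nat.le_add_right _ _)))
  simp at hle

/-- if the kernel contains an element without fixed vertex, some vertex group is in `K` -/
lemma exists_of_hyperbolic (h : TreeAct V X Γ) (hc : KerComm χ) {t : V} (ht : χ t ≠ 1)
    (htg : ∀ g, ∃ k : ℤ, χ g = χ t ^ k) {n : Ab χ hc}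
    (hn : ∀ f : ℤ[T;T⁻¹], rho hc t f n = 0 → f = 0)
    {f : V} (hfχ : χ f = 1) (hf : ∀ x : X, f • x ≠ x)
    (hfg : ∀ x y : X, Γ.Adj x y →
      Group.FG ↥(MulAction.stabilizer V x ⊓ MulAction.stabilizer V y)) :
    ∃ x : X, InK ↥(MulAction.stabilizer V x) := by
  classical
  obtain ⟨L, l, hl, hL, hfL, hGL, hNL⟩ := h.line_of_normal χ.ker
    (fun a ha b hb => hc a b ha hb) (f := f) hfχ hf
  have hinj := hL.injective h.isTree
  -- the edge group
  set E := MulAction.stabilizer V (L 0) ⊓ MulAction.stabilizer V (L 1) with hE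
  have hadj : Γ.Adj (L 0) (L 1) := by
    rw [← SimpleGraph.dist_eq_one_iff_adj, hL]; rfl
  have hEfg : E.FG := (Group.fg_iff_subgroup_fg E).mp (hfg _ _ hadj)
  -- the vertex group
  set H := MulAction.stabilizer V (L 0) with hH
  have hHfg : Group.FG H := by
    rw [Group.fg_iff_subgroup_fg]
    by_cases hr : ∃ r ∈ H, r • L 1 ≠ L 1
    · obtain ⟨r, hr, hr1⟩ := hr
      have hact : ∀ g ∈ H, g • L 1 ≠ L 1 → ∀ i, g • L i = L (-i) := by
        intro g hg hg1 i
        obtain ⟨c, e, he, hce⟩ := hGL g
        have h0 : g • L 0 = L 0 := hg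
        rw [hce] at h0
        have h0' := hinj h0
        have hc0 : c = 0 := by linarith
        rcases he with rfl | rfl
        · exfalso
          apply hg1
          rw [hce, hc0]; congr 1
        · rw [hce, hc0]; congr 1; ring
      have hHE : H = E ⊔ Subgroup.zpowers r := by
        apply le_antisymm
        · intro g hg
          by_cases hg1 : g • L 1 = L 1
          · exact Subgroup.mem_sup_left (Subgroup.mem_inf.mpr ⟨hg, hg1⟩)
          · have h1 : g * r ∈ E := by
              refine Subgroup.mem_inf.mpr ⟨H.mul_mem hg hr, ?_⟩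
              rw [MulAction.mem_stabilizer_iff, mul_smul, hact r hr hr1, hact g hg hg1]
              congr 1
            have h2 : g = (g * r) * r⁻¹ := by group
            rw [h2]
            exact Subgroup.mul_mem _ (Subgroup.mem_sup_left h1)
              (Subgroup.mem_sup_right (Subgroup.inv_mem _ (Subgroup.mem_zpowers r)))
        · rw [sup_le_iff]
          refine ⟨inf_le_left, ?_⟩
          rw [Subgroup.zpowers_le]
          exact hr
      rw [hHE]
      apply hEfg.sup
      exact ⟨{r}, by rw [Finset.coe_singleton, Subgroup.zpowers_eq_closure]⟩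
    · push Not at hr
      have hHE : H = E := by
        apply le_antisymm
        · intro g hg
          exact Subgroup.mem_inf.mpr ⟨hg, hr g hg⟩
        · exact inf_le_left
      rw [hHE]
      exact hEfg
  -- the square of `t` is a translation
  obtain ⟨c, hc2⟩ : ∃ c : ℤ, ∀ i, (t ^ (2 : ℤ)) • L i = L (i + c) := by
    obtain ⟨c, e, he, hce⟩ := hGL t
    have : t ^ (2 : ℤ) = t * t := by rw [zpow_ofNat, pow_two]
    rw [this]
    rcases he with rfl | rfl
    · refine ⟨2 * c, fun i => ?_⟩
      rw [mul_smul, hce, hce]; congr 1; ring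
    · refine ⟨0, fun i => ?_⟩
      rw [mul_smul, hce, hce]; congr 1; ring
  set g0 : V := f ^ (-c) * (t ^ (2 : ℤ)) ^ l with hg0
  have hg0H : g0 ∈ H := by
    rw [hH, MulAction.mem_stabilizer_iff, hg0, mul_smul, zpow_axis hc2, zpow_axis hfL]
    congr 1; ring
  have hg0χ : χ g0 ≠ 1 := by
    rw [hg0, map_mul, map_zpow, hfχ, one_zpow, one_mul, map_zpow, map_zpow, ← zpow_mul]
    intro h1
    have := zpow_eq_one_of_ne ht h1
    omega
  obtain ⟨b, hb⟩ := hNL n.val (Ab.map_val n)
  have hr0 : (T 2 - 1 : ℤ[T;T⁻¹]) ≠ 0 := by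
    intro h0
    have h1 := congrArg (fun f : ℤ[T;T⁻¹] => f.coeff 2) h0
    have h2 : (1 : ℤ[T;T⁻¹]).coeff 2 = 0 := by
      rw [← T_zero, T_apply]; simp
    simp [h2] at h1
  have hmem : (rho hc t (T 2 - 1 : ℤ[T;T⁻¹]) n).val ∈ H := by
    have e1 : (rho hc t (T 2 - 1 : ℤ[T;T⁻¹]) n).val
        = t ^ (2 : ℤ) * n.val * (t ^ (2 : ℤ))⁻¹ * (n.val)⁻¹ := by
      rw [map_sub, map_one, LinearMap.sub_apply, sub_eq_add_neg, Ab.val_add, Ab.val_neg, rho_T_val]
      rfl
    rw [hH, MulAction.mem_stabilizer_iff, e1, mul_smul, mul_smul, mul_smul, inv_axis hb,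
      inv_axis hc2, hb, hc2]
    congr 1; ring
  exact ⟨L 0, InK.sub hc htg hn H hHfg hg0H hg0χ _ hr0 hmem⟩

end

/-- the action on the tree of a splitting -/
lemma Splitting.treeAct {C : (H : Type) → [Group H] → Prop} {G : Type} [Group G]
    (S : Splitting C G) : TreeAct G S.V S.T := ⟨S.isTree, S.adj_smul, S.no_inversion⟩

/-- Every nontrivial splitting over finitely generated groups of a group in the class `K` has a
vertex group in the class `K`. -/
theorem InK.exists_stabilizer {V : Type} [Group V] (hK : InK V) (S : Splitting FGClass V) :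
    ∃ x : S.V, InK ↥(MulAction.stabilizer V x) := by
  classical
  obtain ⟨hV, χ, hc, t, n, ht, htg, hn⟩ := hK
  have h := S.treeAct
  by_cases hell : ∀ a ∈ χ.ker, ∃ x : S.V, a • x = x
  · exfalso
    by_cases htx : ∃ p : S.V, t • p = p
    · obtain ⟨p, hp⟩ := htx
      obtain ⟨S0, hS0⟩ := hV.out
      choose k a hka using exists_decomp hc htg
      obtain ⟨q, hq1, hq2⟩ := h.exists_fix_of_elliptic χ.ker (fun a ha b hb => hc a b ha hb) hell
        (S0.image (fun g => (a g).val)) (by
          intro b hb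
          rw [Finset.mem_image] at hb
          obtain ⟨g, -, rfl⟩ := hb
          exact Ab.map_val _) {t} p (by
          intro r hr
          rw [Set.mem_singleton_iff] at hr
          rw [hr, hp])
      have htq : t • q = q := hq2 t rfl
      obtain ⟨g, hg⟩ := S.nontrivial q
      apply hg
      have hgS : g ∈ Subgroup.closure (S0 : Set V) := by rw [hS0]; trivial
      have hle : Subgroup.closure (S0 : Set V) ≤ MulAction.stabilizer V q := by
        rw [Subgroup.closure_le]
        intro x hx
        have h1 : (a x).val ∈ MulAction.stabilizer V q :=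
          hq1 _ (Finset.mem_image_of_mem _ hx)
        have h2 : t ∈ MulAction.stabilizer V q := htq
        rw [SetLike.mem_coe, hka x]
        exact Subgroup.mul_mem _ h1 (Subgroup.zpow_mem _ h2 _)
      exact hle hgS
    · push Not at htx
      obtain ⟨L, l, hl, hL, htL⟩ := h.exists_axis t htx
      rcases h.common_end χ.ker (fun a ha b hb => hc a b ha hb) hell hl hL htL with hray | hray
      · apply no_ray h hc htg hn hl hL htL (fun m hm => hray m hm)
        apply S.edge_mem
        rw [← SimpleGraph.dist_eq_one_iff_adj, hL]; rfl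
      · have htg' : ∀ g, ∃ k : ℤ, χ g = χ t⁻¹ ^ k := by
          intro g
          obtain ⟨k, hk⟩ := htg g
          exact ⟨-k, by rw [hk, map_inv, inv_zpow', neg_neg]⟩
        have hn' : ∀ f : ℤ[T;T⁻¹], rho hc t⁻¹ f n = 0 → f = 0 := by
          intro f hf
          rw [rho_dil hc (t := t) (d := -1) (by rw [map_inv, zpow_neg, zpow_one])] at hf
          apply dil_injective (d := -1) (by omega)
          rw [hn _ hf, map_zero]
        apply no_ray h hc htg' hn' hl hL.reverse (L := fun i => L (-i))
        · intro i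
          rw [inv_axis htL]
          congr 1; ring
        · intro m hm K
          obtain ⟨i, hi1, hi2⟩ := hray m hm (-K)
          exact ⟨-i, by omega, by simpa using hi2⟩
        · apply S.edge_mem
          rw [← SimpleGraph.dist_eq_one_iff_adj, hL]; rfl
  · push Not at hell
    obtain ⟨f, hf, hfx⟩ := hell
    exact exists_of_hyperbolic h hc ht htg hn hf hfx S.edge_mem

end Pool.Agent.Lib.MP_d66326_al
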