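import Pool.Agent.Lib.MP_d66326_al.BRClass
import Pool.Agent.Lib.MP_d66326_al.KClosure

set_option autoImplicit false

/-!
Splittings of the Baumslag-Remeslennikov group.
-/

namespace Pool.Agent.Lib.MP_d66326_al

namespace BR

section

variable {X : Type*} [MulAction BR X] {Γ : SimpleGraph X}

lemma st_axis {L : ℤ → X} {ls lt : ℤ} (hs : ∀ i, s • L i = L (i + ls))
    (ht : ∀ i, t • L i = L (i + lt)) (p q i : ℤ) :
    st p q • L i = L (i + (p * ls + q * lt)) := by
  rw [st, mul_smul, zpow_axis ht, zpow_axis hs]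
  congr 1; ring

/-- decomposition of an element as a product of an element of `M` and `s ^ i * t ^ j` -/
lemma exists_M (g : BR) : ∃ m ∈ M,
    g = m * st (Multiplicative.toAdd (chiS g)) (Multiplicative.toAdd (chiT g)) := by
  refine ⟨g * (st (Multiplicative.toAdd (chiS g)) (Multiplicative.toAdd (chiT g)))⁻¹, ?_,
    by group⟩
  rw [mem_M, map_mul, map_mul, map_inv, map_inv, chiS_st, chiT_st, ofAdd_toAdd, ofAdd_toAdd]
  simp

lemma vertex_inK (h : TreeAct BR X Γ) {L : ℤ → X} (hL : IsLine Γ L) {ls lt : ℤ}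
    (hs : ∀ i, s • L i = L (i + ls)) (ht : ∀ i, t • L i = L (i + lt)) (hne : ls ≠ 0 ∨ lt ≠ 0)
    (hray : ∀ m ∈ M, ∀ K : ℤ, ∃ i, K ≤ i ∧ m • L i = L i)
    (hfg : Group.FG ↥(MulAction.stabilizer BR (L 0) ⊓ MulAction.stabilizer BR (L 1))) :
    InK ↥(MulAction.stabilizer BR (L 0)) := by
  have hpos : 0 < ls * ls + lt * lt := by
    rcases hne with h0 | h0
    · have := mul_self_pos.mpr h0
      nlinarith [mul_self_nonneg lt]
    · have := mul_self_pos.mpr h0
      nlinarith [mul_self_nonneg ls]
  have key : ∀ g ∈ MulAction.stabilizer BR (L 0),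
      (Multiplicative.toAdd (chiS g)) * ls + (Multiplicative.toAdd (chiT g)) * lt = 0 ∧
      g • L 1 = L 1 := by
    intro g hg
    obtain ⟨m, hm, hgm⟩ := exists_M g
    have hg' : g • L 0 = L 0 := hg
    have h1 := hg'
    rw [hgm] at h1
    refine ⟨h.eq_zero_of_fix hL (hray m hm) (st_axis hs ht _ _) h1, ?_⟩
    have h2 := h.fix_far_of_fix hL (hray m hm) (st_axis hs ht _ _) h1 (k := 1) (by omega)
    rw [hgm]
    exact h2
  have hHE : MulAction.stabilizer BR (L 0) =
      MulAction.stabilizer BR (L 0) ⊓ MulAction.stabilizer BR (L 1) := by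
    apply le_antisymm
    · intro g hg
      exact Subgroup.mem_inf.mpr ⟨hg, (key g hg).2⟩
    · exact inf_le_left
  have hHfg : Group.FG (MulAction.stabilizer BR (L 0)) := by rw [hHE]; exact hfg
  -- the element outside `M`
  have hg0 : st lt (-ls) ∈ MulAction.stabilizer BR (L 0) := by
    rw [MulAction.mem_stabilizer_iff, st_axis hs ht]
    congr 1; ring
  have hg0M : st lt (-ls) ∉ M := by
    rw [mem_M, chiS_st, chiT_st]
    rintro ⟨h1, h2⟩
    have h1' : lt = 0 := Multiplicative.ofAdd.injective h1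
    have h2' : -ls = 0 := Multiplicative.ofAdd.injective h2
    omega
  -- the element of `M`
  have haM : a ∈ M := by rw [← U_eq_M]; exact a_mem_U
  obtain ⟨i0, -, hi0⟩ := hray a haM 0
  obtain ⟨k, hk0, hk⟩ : ∃ k : ℤ, 0 ≤ k ∧ i0 ≤ k := ⟨i0.natAbs, by omega, by omega⟩
  have hkl : i0 ≤ k * (ls * ls + lt * lt) := by
    have : k ≤ k * (ls * ls + lt * lt) := by nlinarith
    omega
  have hn0 : b (-(k * ls)) (-(k * lt)) ∈ MulAction.stabilizer BR (L 0) := by
    rw [MulAction.mem_stabilizer_iff, b, st_inv, mul_smul, mul_smul, st_axis hs ht,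
      h.ray_fix hL hi0 (hray a haM) (by
        have : 0 + (- -(k * ls) * ls + - -(k * lt) * lt) = k * (ls * ls + lt * lt) := by ring
        rw [this]; exact hkl), st_axis hs ht]
    congr 1; ring
  have hn0M : b (-(k * ls)) (-(k * lt)) ∈ M := b_mem_M _ _
  have hn : trq (b (-(k * ls)) (-(k * lt))) ≠ 0 := by
    have h1 := tr_conj uX uY uY_val haM (st (-(k * ls)) (-(k * lt)))
    have h2 : trq (b (-(k * ls)) (-(k * lt))) = _ := h1
    rw [h2, tr_a, mul_one]
    exact Units.ne_zero _
  by_cases hlt : lt = 0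
  · refine inK_of _ hHfg (chiT.comp (Subgroup.subtype _)) ?_ hg0 hg0M hn0 hn0M hn
    intro g
    constructor
    · intro hg
      have hg' : chiT (g : BR) = 1 := hg
      have h1 := (key g g.2).1
      rw [hlt, mul_zero, add_zero] at h1
      rw [mem_M]
      refine ⟨?_, hg'⟩
      rcases mul_eq_zero.mp h1 with h2 | h2
      · exact Multiplicative.toAdd.injective h2
      · omega
    · intro hg
      exact (mem_M.mp hg).2
  · refine inK_of _ hHfg (chiS.comp (Subgroup.subtype _)) ?_ hg0 hg0M hn0 hn0M hn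
    intro g
    constructor
    · intro hg
      have hg' : chiS (g : BR) = 1 := hg
      have h1 := (key g g.2).1
      rw [hg', toAdd_one, zero_mul, zero_add] at h1
      rw [mem_M]
      refine ⟨hg', ?_⟩
      rcases mul_eq_zero.mp h1 with h2 | h2
      · exact Multiplicative.toAdd.injective h2
      · omega
    · intro hg
      exact (mem_M.mp hg).1

/-- all elements of `M` are elliptic -/
lemma M_elliptic (h : TreeAct BR X Γ) : ∀ m ∈ M, ∃ x : X, m • x = x := by
  by_contra hcon
  push Not at hcon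
  obtain ⟨f, hfM, hf⟩ := hcon
  obtain ⟨L, l, hl, hL, hfL, hGL, hNL⟩ := h.line_of_normal M M_comm hfM hf
  have hinj := hL.injective h.isTree
  have haM : a ∈ M := by rw [← U_eq_M]; exact a_mem_U
  obtain ⟨α, hα⟩ := hNL a haM
  obtain ⟨cs, es, hes, hs⟩ := hGL s
  obtain ⟨ct, et, het, ht⟩ := hGL t
  have hs' : (s⁻¹ * a * s) • L 0 = L (es * α) := by
    rw [mul_smul, mul_smul, hs, hα, inv_smul_eq_iff, hs]
    congr 1
    rcases hes with rfl | rfl <;> ring
  have ht' : (t⁻¹ * a * t) • L 0 = L (et * α) := by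
    rw [mul_smul, mul_smul, ht, hα, inv_smul_eq_iff, ht]
    congr 1
    rcases het with rfl | rfl <;> ring
  have hrel : L (es * α) = L (et * α + α) := by
    rw [← hs', rel_s, mul_smul, ht', hα]
  have hα0 : α = 0 := by
    have := hinj hrel
    rcases hes with rfl | rfl <;> rcases het with rfl | rfl <;> omega
  subst hα0
  have hU : ∀ u ∈ U, ∀ i, u • L i = L i := by
    intro u hu
    induction hu using Subgroup.closure_induction with
    | mem x hx =>
      obtain ⟨⟨p, q⟩, rfl⟩ := hx
      intro i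
      obtain ⟨c, e, -, hce⟩ := hGL (st p q)⁻¹
      simp only [b]
      rw [mul_smul, mul_smul, hce, hα, add_zero, ← hce, smul_inv_smul]
    | one => intro i; rw [one_smul]
    | mul x y _ _ hx hy => intro i; rw [mul_smul, hy, hx]
    | inv x _ hx => intro i; rw [inv_smul_eq_iff, hx]
  have h1 := hU f (by rw [U_eq_M]; exact hfM) 0
  rw [hfL] at h1
  have := hinj h1
  omega

end

/-- every nontrivial splitting of the Baumslag-Remeslennikov group over finitely generated
groups has a vertex group in the class `K` -/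
theorem exists_stabilizer (S : Splitting FGClass BR) :
    ∃ x : S.V, InK ↥(MulAction.stabilizer BR x) := by
  classical
  have h := S.treeAct
  have hell := M_elliptic h
  have haM : a ∈ M := by rw [← U_eq_M]; exact a_mem_U
  -- an invariant line
  obtain ⟨L, ls, lt, f, l, hL, hs, ht, hne, hl, hf⟩ : ∃ (L : ℤ → S.V) (ls lt : ℤ) (f : BR) (l : ℤ),
      IsLine S.T L ∧ (∀ i, s • L i = L (i + ls)) ∧ (∀ i, t • L i = L (i + lt)) ∧
      (ls ≠ 0 ∨ lt ≠ 0) ∧ 0 < l ∧ ∀ i, f • L i = L (i + l) := by
    by_cases hsx : ∃ p : S.V, s • p = p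
    · by_cases htx : ∃ p : S.V, t • p = p
      · exfalso
        obtain ⟨p, hp⟩ := h.exists_common_fix {s, t} (by
          intro x hx y hy
          rw [Finset.mem_insert, Finset.mem_singleton] at hx hy
          rcases hx with rfl | rfl <;> rcases hy with rfl | rfl
          · rfl
          · exact st_comm
          · exact st_comm.symm
          · rfl) (by
          intro x hx
          rw [Finset.mem_insert, Finset.mem_singleton] at hx
          rcases hx with rfl | rfl
          · exact hsx
          · exact htx)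
        obtain ⟨q, hq1, hq2⟩ := h.exists_fix_of_elliptic M M_comm hell {a} (by
          intro x hx
          rw [Finset.mem_singleton] at hx
          rw [hx]; exact haM) ((({s, t} : Finset BR)) : Set BR) p hp
        obtain ⟨g, hg⟩ := S.nontrivial q
        apply hg
        exact gen (MulAction.stabilizer BR q) (hq1 a (by simp)) (hq2 s (by simp))
          (hq2 t (by simp)) g
      · push Not at htx
        obtain ⟨L, l, hl, hL, hfL⟩ := h.exists_axis t htx
        obtain ⟨c, hc⟩ := h.commute_axis hL hl.ne' hfL st_comm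
        exact ⟨L, c, l, t, l, hL, hc, hfL, Or.inr hl.ne', hl, hfL⟩
    · push Not at hsx
      obtain ⟨L, l, hl, hL, hfL⟩ := h.exists_axis s hsx
      obtain ⟨c, hc⟩ := h.commute_axis hL hl.ne' hfL st_comm.symm
      exact ⟨L, l, c, s, l, hL, hfL, hc, Or.inl hl.ne', hl, hfL⟩
  rcases h.common_end M M_comm hell hl hL hf with hray | hray
  · refine ⟨L 0, vertex_inK h hL hs ht hne hray ?_⟩
    apply S.edge_mem
    rw [← SimpleGraph.dist_eq_one_iff_adj, hL]; rfl
  · refine ⟨L (-0), vertex_inK h (L := fun i => L (-i)) hL.reverse (ls := -ls) (lt := -lt)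
      ?_ ?_ (by omega) ?_ ?_⟩
    · intro i
      rw [hs]; congr 1; ring
    · intro i
      rw [ht]; congr 1; ring
    · intro m hm K
      obtain ⟨i, hi1, hi2⟩ := hray m hm (-K)
      exact ⟨-i, by omega, by simpa using hi2⟩
    · apply S.edge_mem
      rw [← SimpleGraph.dist_eq_one_iff_adj, hL]; rfl

end BR

end Pool.Agent.Lib.MP_d66326_al
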