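import Pool.Agent.Lib.MP_d66326_al.BRGroup

set_option autoImplicit false

/-!
Structure of the Baumslag-Remeslennikov group.
-/

namespace Pool.Agent.Lib.MP_d66326_al

namespace BR

/-- the elements `s ^ i * t ^ j` -/
def st (i j : ℤ) : BR := s ^ i * t ^ j

lemma st_zero : st 0 0 = 1 := by simp [st]

lemma st_mul (i j i' j' : ℤ) : st i j * st i' j' = st (i + i') (j + j') := by
  have h : Commute s t := st_comm
  have h1 : t ^ j * s ^ i' = s ^ i' * t ^ j := (h.zpow_zpow i' j).symm
  rw [st, st, st, zpow_add, zpow_add]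
  calc s ^ i * t ^ j * (s ^ i' * t ^ j') = s ^ i * (t ^ j * s ^ i') * t ^ j' := by group
    _ = s ^ i * (s ^ i' * t ^ j) * t ^ j' := by rw [h1]
    _ = s ^ i * s ^ i' * (t ^ j * t ^ j') := by group

lemma st_inv (i j : ℤ) : (st i j)⁻¹ = st (-i) (-j) := by
  rw [inv_eq_iff_mul_eq_one, st_mul, add_neg_cancel, add_neg_cancel, st_zero]

lemma chiS_st (i j : ℤ) : chiS (st i j) = Multiplicative.ofAdd i := by
  rw [st, map_mul, map_zpow, map_zpow, chiS_s, chiS_t, one_zpow, mul_one, ← ofAdd_zsmul]
  simp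

lemma chiT_st (i j : ℤ) : chiT (st i j) = Multiplicative.ofAdd j := by
  rw [st, map_mul, map_zpow, map_zpow, chiT_s, chiT_t, one_zpow, one_mul, ← ofAdd_zsmul]
  simp

/-- the conjugates of `a` -/
def b (i j : ℤ) : BR := st i j * a * (st i j)⁻¹

lemma b_zero : b 0 0 = a := by rw [b, st_zero]; simp

lemma conj_b (i j i' j' : ℤ) : st i' j' * b i j * (st i' j')⁻¹ = b (i' + i) (j' + j) := by
  rw [b, b, ← st_mul]; group

/-- the subgroup generated by the conjugates of `a` -/
def U : Subgroup BR := Subgroup.closure (Set.range (fun p : ℤ × ℤ => b p.1 p.2))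

lemma b_mem_U (i j : ℤ) : b i j ∈ U := Subgroup.subset_closure ⟨(i, j), rfl⟩

lemma a_mem_U : a ∈ U := by rw [← b_zero]; exact b_mem_U 0 0

lemma conj_mem_U (i j : ℤ) {u : BR} (hu : u ∈ U) : st i j * u * (st i j)⁻¹ ∈ U := by
  induction hu using Subgroup.closure_induction with
  | mem x hx =>
    obtain ⟨⟨i', j'⟩, rfl⟩ := hx
    simp only
    rw [conj_b]
    exact b_mem_U _ _
  | one => simp
  | mul x y _ _ hx hy =>
    have : st i j * (x * y) * (st i j)⁻¹ =
      (st i j * x * (st i j)⁻¹) * (st i j * y * (st i j)⁻¹) := by group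
    rw [this]
    exact U.mul_mem hx hy
  | inv x _ hx =>
    have : st i j * x⁻¹ * (st i j)⁻¹ = (st i j * x * (st i j)⁻¹)⁻¹ := by group
    rw [this]
    exact U.inv_mem hx

/-- the joint kernel of the exponent sums -/
def M : Subgroup BR := chiS.ker ⊓ chiT.ker

instance : M.Normal := by rw [M]; infer_instance

lemma mem_M {g : BR} : g ∈ M ↔ chiS g = 1 ∧ chiT g = 1 := Iff.rfl

lemma exists_U (g : BR) : ∃ u ∈ U, ∃ i j : ℤ, g = u * st i j := by
  let P : Subgroup BR :=
    { carrier := {g | ∃ u ∈ U, ∃ i j : ℤ, g = u * st i j}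
      one_mem' := ⟨1, U.one_mem, 0, 0, by rw [st_zero, one_mul]⟩
      mul_mem' := by
        rintro _ _ ⟨u, hu, i, j, rfl⟩ ⟨u', hu', i', j', rfl⟩
        refine ⟨u * (st i j * u' * (st i j)⁻¹), U.mul_mem hu (conj_mem_U i j hu'), i + i', j + j',
          ?_⟩
        rw [← st_mul]; group
      inv_mem' := by
        rintro _ ⟨u, hu, i, j, rfl⟩
        refine ⟨(st i j)⁻¹ * u⁻¹ * st i j, ?_, -i, -j, ?_⟩
        · have := conj_mem_U (-i) (-j) (U.inv_mem hu)
          rwa [← st_inv, inv_inv] at this
        · rw [← st_inv]; group }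
  exact gen P ⟨a, a_mem_U, 0, 0, by rw [st_zero, mul_one]⟩
    ⟨1, U.one_mem, 1, 0, by rw [st]; simp⟩ ⟨1, U.one_mem, 0, 1, by rw [st]; simp⟩ g

lemma b_mem_M (i j : ℤ) : b i j ∈ M := by
  rw [mem_M, b]
  simp

lemma U_eq_M : U = M := by
  apply le_antisymm
  · rw [U, Subgroup.closure_le]
    rintro _ ⟨⟨i, j⟩, rfl⟩
    exact b_mem_M i j
  · intro g hg
    obtain ⟨u, hu, i, j, rfl⟩ := exists_U g
    have hu' : u ∈ M := by
      have hle : U ≤ M := by
        rw [U, Subgroup.closure_le]
        rintro _ ⟨⟨i, j⟩, rfl⟩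
        exact b_mem_M i j
      exact hle hu
    rw [mem_M, map_mul, map_mul, (mem_M.mp hu').1, (mem_M.mp hu').2, one_mul, one_mul, chiS_st,
      chiT_st] at hg
    have hi : i = 0 := Multiplicative.ofAdd.injective hg.1
    have hj : j = 0 := Multiplicative.ofAdd.injective hg.2
    rw [hi, hj, st_zero, mul_one]
    exact hu

/-! ### commutativity -/

/-- conjugates of `a` by powers of `t` -/
lemma conj_s_b (k : ℤ) : s⁻¹ * b 0 (-k) * s = b 0 (-k) * b 0 (-(k + 1)) := by
  have h1 : s⁻¹ * st 0 (-k) = st 0 (-k) * s⁻¹ := by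
    have e : s⁻¹ = st (-1) 0 := by simp [st]
    rw [e, st_mul, st_mul, add_comm, add_comm (0 : ℤ) (-k)]
  have h2 : (st 0 (-k))⁻¹ * s = s * (st 0 (-k))⁻¹ := by
    have := congrArg (fun z => z⁻¹) h1
    simp only [mul_inv_rev, inv_inv] at this
    exact this
  have h3 : b 0 (-(k + 1)) = st 0 (-k) * (t⁻¹ * a * t) * (st 0 (-k))⁻¹ := by
    have e : st 0 (-(k + 1)) = st 0 (-k) * t⁻¹ := by
      have e1 : t⁻¹ = st 0 (-1) := by simp [st]
      rw [e1, st_mul]; congr 1; ring
    rw [b, e]; group
  calc s⁻¹ * b 0 (-k) * s = (s⁻¹ * st 0 (-k)) * a * ((st 0 (-k))⁻¹ * s) := by rw [b]; group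
    _ = st 0 (-k) * (s⁻¹ * a * s) * (st 0 (-k))⁻¹ := by rw [h1, h2]; group
    _ = st 0 (-k) * (a * (t⁻¹ * a * t)) * (st 0 (-k))⁻¹ := by rw [rel_s]
    _ = b 0 (-k) * b 0 (-(k + 1)) := by rw [h3, b]; group

lemma commute_near (k : ℤ) : Commute (b 0 (-k)) (b 0 (-(k + 1))) := by
  have h0 : Commute (b 0 0) (b 0 (-1)) := by
    have e1 : t⁻¹ * a * t = b 0 (-1) := by simp [b, st]
    have := rel_a
    rw [e1] at this
    rw [b_zero]
    exact this
  have h1 := h0.map (MulAut.conj (st 0 (-k)))
  rw [MulAut.conj_apply, MulAut.conj_apply, conj_b, conj_b] at h1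
  convert h1 using 2 <;> ring

lemma commute_nat (n : ℕ) : ∀ k : ℤ, Commute (b 0 (-k)) (b 0 (-(k + n))) := by
  induction n using Nat.strong_induction_on with
  | _ n ih =>
    intro k
    match n, ih with
    | 0, _ => simp
    | 1, _ => exact commute_near k
    | (n + 2), ih =>
      have hpr : Commute (b 0 (-k)) (b 0 (-(k + (n + 1 : ℕ)))) := ih (n + 1) (by omega) k
      have hqr : Commute (b 0 (-(k + 1))) (b 0 (-(k + (n + 1 : ℕ)))) := by
        have := ih n (by omega) (k + 1)
        convert this using 2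
        push_cast; ring
      have hqw : Commute (b 0 (-(k + 1))) (b 0 (-(k + (n + 2 : ℕ)))) := by
        have := ih (n + 1) (by omega) (k + 1)
        convert this using 2
        push_cast; ring
      have hpq : Commute (b 0 (-k)) (b 0 (-(k + 1))) := commute_near k
      have hpqrw : Commute (b 0 (-k) * b 0 (-(k + 1)))
          (b 0 (-(k + (n + 1 : ℕ))) * b 0 (-(k + (n + 2 : ℕ)))) := by
        have h1 := hpr.map (MulAut.conj s⁻¹)
        rw [MulAut.conj_apply, MulAut.conj_apply, inv_inv, conj_s_b, conj_s_b] at h1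
        convert h1 using 3
        push_cast; ring
      set p := b 0 (-k)
      set q := b 0 (-(k + 1))
      set r := b 0 (-(k + (n + 1 : ℕ)))
      set w := b 0 (-(k + (n + 2 : ℕ)))
      have e1 : r * (p * w) * q = r * (w * p) * q := by
        calc r * (p * w) * q = (r * p) * (w * q) := by group
          _ = (p * r) * (q * w) := by rw [hpr.eq, hqw.eq]
          _ = p * (r * q) * w := by group
          _ = p * (q * r) * w := by rw [hqr.eq]
          _ = (p * q) * (r * w) := by group
          _ = (r * w) * (p * q) := hpqrw.eq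
          _ = r * (w * p) * q := by group
      exact mul_left_cancel (mul_right_cancel e1)

lemma commute_t (j j' : ℤ) : Commute (b 0 j) (b 0 j') := by
  rcases le_total j' j with h | h
  · have := commute_nat (j - j').toNat (-j)
    convert this using 2
    · ring
    · omega
  · have := commute_nat (j' - j).toNat (-j')
    symm
    convert this using 2
    · ring
    · omega

/-- the subgroup generated by the conjugates of `a` by powers of `t` -/
def A0 : Subgroup BR := Subgroup.closure (Set.range (fun j : ℤ => b 0 j))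

lemma conj_s_A0 {x : BR} (hx : x ∈ A0) : s⁻¹ * x * s ∈ A0 := by
  induction hx using Subgroup.closure_induction with
  | mem x hx =>
    obtain ⟨j, rfl⟩ := hx
    have := conj_s_b (-j)
    rw [neg_neg] at this
    simp only
    rw [this]
    exact A0.mul_mem (Subgroup.subset_closure ⟨j, rfl⟩) (Subgroup.subset_closure ⟨_, rfl⟩)
  | one => simp
  | mul x y _ _ hx hy =>
    have : s⁻¹ * (x * y) * s = (s⁻¹ * x * s) * (s⁻¹ * y * s) := by group
    rw [this]
    exact A0.mul_mem hx hy
  | inv x _ hx =>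
    have : s⁻¹ * x⁻¹ * s = (s⁻¹ * x * s)⁻¹ := by group
    rw [this]
    exact A0.inv_mem hx

lemma b_neg_mem_A0 (n : ℕ) (j : ℤ) : b (-(n : ℤ)) j ∈ A0 := by
  induction n with
  | zero => exact Subgroup.subset_closure ⟨j, by simp⟩
  | succ n ih =>
    have h1 := conj_s_A0 ih
    have e : s⁻¹ = st (-1) 0 := by simp [st]
    have e' : s = (st (-1) 0)⁻¹ := by rw [← e, inv_inv]
    have h2 : s⁻¹ * b (-(n : ℤ)) j * s = b (-((n + 1 : ℕ) : ℤ)) j := by
      conv_lhs => rw [e]
      rw [e', conj_b]
      congr 1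
      · push_cast; ring
      · ring
    rwa [h2] at h1

lemma commute_a_of_mem_A0 {x : BR} (hx : x ∈ A0) : Commute x a := by
  induction hx using Subgroup.closure_induction with
  | mem x hx =>
    obtain ⟨j, rfl⟩ := hx
    have := commute_t j 0
    rwa [b_zero] at this
  | one => exact Commute.one_left _
  | mul x y _ _ hx hy => exact hx.mul_left hy
  | inv x _ hx => exact hx.inv_left

lemma commute_a (i j : ℤ) : Commute (b i j) a := by
  rcases le_total i 0 with h | h
  · have h1 := b_neg_mem_A0 (-i).toNat j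
    have : (-((-i).toNat : ℤ)) = i := by omega
    rw [this] at h1
    exact commute_a_of_mem_A0 h1
  · have h1 := b_neg_mem_A0 i.toNat (-j)
    have : (-((i).toNat : ℤ)) = -i := by omega
    rw [this] at h1
    have h2 := commute_a_of_mem_A0 h1
    rw [← b_zero] at h2
    have h3 := h2.map (MulAut.conj (st i j))
    rw [MulAut.conj_apply, MulAut.conj_apply, conj_b, conj_b] at h3
    simp only [add_neg_cancel, add_zero] at h3
    rw [b_zero] at h3
    exact h3.symm

lemma commute_b (i j i' j' : ℤ) : Commute (b i j) (b i' j') := by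
  have h := commute_a (i - i') (j - j')
  rw [← b_zero] at h
  have h1 := h.map (MulAut.conj (st i' j'))
  rw [MulAut.conj_apply, MulAut.conj_apply, conj_b, conj_b] at h1
  simpa using h1

lemma commute_U {x y : BR} (hx : x ∈ U) (hy : y ∈ U) : Commute x y := by
  have key : ∀ i j : ℤ, Commute x (b i j) := by
    intro i j
    induction hx using Subgroup.closure_induction with
    | mem x hx =>
      obtain ⟨⟨i', j'⟩, rfl⟩ := hx
      exact commute_b _ _ _ _
    | one => exact Commute.one_left _
    | mul x y _ _ hx hy => exact hx.mul_left hy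
    | inv x _ hx => exact hx.inv_left
  induction hy using Subgroup.closure_induction with
  | mem x hx =>
    obtain ⟨⟨i', j'⟩, rfl⟩ := hx
    exact key _ _
  | one => exact Commute.one_right _
  | mul x y _ _ hx hy => exact hx.mul_right hy
  | inv x _ hx => exact hx.inv_right

/-- the joint kernel of the exponent sums is abelian -/
lemma M_comm : ∀ x ∈ M, ∀ y ∈ M, x * y = y * x := by
  intro x hx y hy
  rw [← U_eq_M] at hx hy
  exact commute_U hx hy

end BR

end Pool.Agent.Lib.MP_d66326_al
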