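import Mathlib

set_option autoImplicit false

/-!
# Splittings and strong accessibility

Splittings of a group over a class of groups are given through their Bass-Serre trees: by the
structure theorem of Bass-Serre theory, a decomposition of `G` as the fundamental group of a
finite graph of groups is the same as an action of `G` without inversions on a tree with finitely
many orbits of vertices and of edges; the vertex groups and edge groups of the decomposition are
the stabilizers of the vertices and of the edges of the tree (one for each orbit).
-/

namespace Pool.Agent.Lib.MP_d66326_al

/-- A nontrivial splitting of the group `G` over the class `C` of groups, given by its Bass-Serre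
tree: an action of `G`, without inversions, by automorphisms of a tree `T` (with vertex set `V`),
with finitely many orbits of vertices and of (oriented) edges, such that all edge stabilizers
belong to `C` and no vertex is fixed by `G`. -/
structure Splitting (C : (H : Type) → [Group H] → Prop) (G : Type) [Group G] where
  /-- the set of vertices of the tree -/
  V : Type
  /-- the action of `G` on the vertices -/
  [action : MulAction G V]
  /-- the tree -/
  T : SimpleGraph V
  /-- `T` is a tree: connected and without cycles -/
  isTree : T.IsTree
  /-- `G` acts by graph automorphisms -/
  adj_smul : ∀ (g : G) (x y : V), T.Adj x y → T.Adj (g • x) (g • y)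
  /-- no group element inverts an edge -/
  no_inversion : ∀ (g : G) (x y : V), T.Adj x y → ¬ (g • x = y ∧ g • y = x)
  /-- there are finitely many orbits of vertices -/
  finite_vertices : ∃ F : Set V, F.Finite ∧ ∀ x : V, ∃ y ∈ F, ∃ g : G, g • y = x
  /-- there are finitely many orbits of edges -/
  finite_edges : ∃ F : Set (V × V), F.Finite ∧
    ∀ x y : V, T.Adj x y → ∃ p ∈ F, ∃ g : G, g • p.1 = x ∧ g • p.2 = y
  /-- the edge groups, i.e. the stabilizers of the edges, belong to the class `C` -/
  edge_mem : ∀ x y : V, T.Adj x y →
    C ↥(MulAction.stabilizer G x ⊓ MulAction.stabilizer G y)
  /-- the splitting is nontrivial: `G` fixes no vertex -/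
  nontrivial : ∀ x : V, ∃ g : G, g • x ≠ x

attribute [instance] Splitting.action

/-- `TerminatesWithin C n G` says that `G` has a hierarchy over `C` that has terminated at stage
`n`: at stage `0` we have the group `G`; a current group without nontrivial splitting over `C` is
kept; a current group with a nontrivial splitting over `C` is replaced by the vertex groups of one
such splitting; and at stage `n` none of the current groups has a nontrivial splitting. -/
def TerminatesWithin (C : (H : Type) → [Group H] → Prop) : ℕ → (G : Type) → [Group G] → Prop
  | 0, G, _ => IsEmpty (Splitting C G)
  | n + 1, G, _ => IsEmpty (Splitting C G) ∨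
      ∃ S : Splitting C G, ∀ x : S.V, TerminatesWithin C n ↥(MulAction.stabilizer G x)

/-- `G` is strongly accessible over the class `C` if it has a hierarchy over `C` which terminates
after finitely many stages. -/
def StronglyAccessible (C : (H : Type) → [Group H] → Prop) (G : Type) [Group G] : Prop :=
  ∃ n : ℕ, TerminatesWithin C n G

/-- the class of finitely generated groups -/
def FGClass (H : Type) [Group H] : Prop := Group.FG H

end Pool.Agent.Lib.MP_d66326_al
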