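import Pool.Agent.Lib.MP_d66326_al.LaurentModule
import Pool.Agent.Lib.MP_d66326_al.Defs

set_option autoImplicit false

/-!
The class of groups `K`: finitely generated extensions of an abelian group by `ℤ` in which some
element of the abelian group has trivial annihilator in `ℤ[T;T⁻¹]`.
-/

namespace Pool.Agent.Lib.MP_d66326_al

open LaurentPolynomial Polynomial

section

variable {V : Type*} [Group V]

/-- the kernel of `χ` is commutative -/
def KerComm (χ : V →* Multiplicative ℤ) : Prop :=
  ∀ a b, χ a = 1 → χ b = 1 → a * b = b * a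

/-- the kernel of `χ`, as a commutative group -/
@[reducible] def kerCommGroup (χ : V →* Multiplicative ℤ) (hc : KerComm χ) : CommGroup χ.ker :=
  { (inferInstance : Group χ.ker) with
    mul_comm := fun a b => Subtype.ext (hc a b a.2 b.2) }

/-- the kernel of `χ`, as an additive group -/
def Ab (χ : V →* Multiplicative ℤ) (_hc : KerComm χ) : Type _ := Additive χ.ker

instance (χ : V →* Multiplicative ℤ) (hc : KerComm χ) : AddCommGroup (Ab χ hc) :=
  @Additive.addCommGroup _ (kerCommGroup χ hc)

namespace Ab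

variable {χ : V →* Multiplicative ℤ} {hc : KerComm χ}

/-- the underlying group element -/
def val (a : Ab χ hc) : V := (Additive.toMul (a : Additive χ.ker) : χ.ker)

/-- make an element of the kernel -/
def mk (v : V) (hv : χ v = 1) : Ab χ hc := Additive.ofMul (⟨v, hv⟩ : χ.ker)

@[simp] lemma val_mk (v : V) (hv : χ v = 1) : (mk v hv : Ab χ hc).val = v := rfl

lemma val_injective : Function.Injective (val : Ab χ hc → V) := by
  intro a b hab
  exact Subtype.ext hab

@[ext] lemma ext {a b : Ab χ hc} (h : a.val = b.val) : a = b := val_injective h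

@[simp] lemma map_val (a : Ab χ hc) : χ a.val = 1 :=
  (Additive.toMul (a : Additive χ.ker) : χ.ker).2

@[simp] lemma val_add (a b : Ab χ hc) : (a + b).val = a.val * b.val := rfl

@[simp] lemma val_zero : (0 : Ab χ hc).val = 1 := rfl

@[simp] lemma val_neg (a : Ab χ hc) : (-a).val = a.val⁻¹ := rfl

@[simp] lemma val_zsmul (n : ℤ) (a : Ab χ hc) : (n • a).val = a.val ^ n := by
  have hnat : ∀ n : ℕ, (n • a).val = a.val ^ n := by
    intro n
    induction n with
    | zero => simp
    | succ n ih => rw [succ_nsmul, val_add, ih, pow_succ]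
  obtain ⟨m, rfl | rfl⟩ := Int.eq_nat_or_neg n
  · rw [natCast_zsmul, zpow_natCast]; exact hnat m
  · rw [neg_smul, natCast_zsmul, val_neg, hnat, zpow_neg, zpow_natCast]

end Ab

variable {χ : V →* Multiplicative ℤ}

/-- conjugation by `u`, as an additive endomorphism -/
def conjEnd (hc : KerComm χ) : V →* Module.End ℤ (Ab χ hc) where
  toFun u := AddMonoidHom.toIntLinearMap
    { toFun := fun a => Ab.mk (u * a.val * u⁻¹) (by simp)
      map_zero' := by ext; simp
      map_add' := by intro a b; ext; simp }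
  map_one' := by ext a; simp
  map_mul' := by
    intro u v; ext a
    simp only [AddMonoidHom.coe_toIntLinearMap, AddMonoidHom.coe_mk, ZeroHom.coe_mk, Ab.val_mk,
      Module.End.mul_apply, mul_inv_rev]
    group

@[simp] lemma conjEnd_val (hc : KerComm χ) (u : V) (a : Ab χ hc) :
    (conjEnd hc u a).val = u * a.val * u⁻¹ := rfl

/-- the action of `ℤ[T;T⁻¹]` on the kernel, `T` acting by conjugation by `u` -/
noncomputable def rho (hc : KerComm χ) (u : V) : ℤ[T;T⁻¹] →+* Module.End ℤ (Ab χ hc) :=
  (AddMonoidAlgebra.lift ℤ (Module.End ℤ (Ab χ hc)) ℤ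
    ((conjEnd hc).comp (zpowersHom V u))).toRingHom

lemma rho_T (hc : KerComm χ) (u : V) (n : ℤ) : rho hc u (T n) = conjEnd hc (u ^ n) := by
  change AddMonoidAlgebra.lift ℤ (Module.End ℤ (Ab χ hc)) ℤ
    ((conjEnd hc).comp (zpowersHom V u)) (AddMonoidAlgebra.single n 1) = _
  rw [AddMonoidAlgebra.lift_single, one_smul]
  rfl

lemma rho_intCast (hc : KerComm χ) (u : V) (n : ℤ) (a : Ab χ hc) :
    rho hc u (n : ℤ[T;T⁻¹]) a = n • a := by
  rw [map_intCast]
  simp

lemma rho_C (hc : KerComm χ) (u : V) (n : ℤ) (a : Ab χ hc) :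
    rho hc u (C n) a = n • a := by
  have : (C n : ℤ[T;T⁻¹]) = ((n : ℤ) : ℤ[T;T⁻¹]) := by simp
  rw [this, rho_intCast]

lemma rho_T_val (hc : KerComm χ) (u : V) (n : ℤ) (a : Ab χ hc) :
    (rho hc u (T n) a).val = u ^ n * a.val * (u ^ n)⁻¹ := by
  rw [rho_T]; simp

/-- a subgroup containing `u` and `n` contains the orbit of `n` -/
lemma rho_mem (hc : KerComm χ) (H : Subgroup V) {u : V} (hu : u ∈ H) {a : Ab χ hc}
    (ha : a.val ∈ H) (f : ℤ[T;T⁻¹]) : (rho hc u f a).val ∈ H := by
  induction f using LaurentPolynomial.induction_on' with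
  | add p q hp hq =>
    rw [map_add, LinearMap.add_apply, Ab.val_add]
    exact H.mul_mem hp hq
  | C_mul_T n m =>
    rw [map_mul, Module.End.mul_apply, rho_C, Ab.val_zsmul, rho_T_val]
    exact H.zpow_mem (H.mul_mem (H.mul_mem (H.zpow_mem hu _) ha) (H.inv_mem (H.zpow_mem hu _))) _

/-- The class `K` of groups. -/
def InK (V : Type*) [Group V] : Prop :=
  Group.FG V ∧ ∃ (χ : V →* Multiplicative ℤ) (hc : KerComm χ) (t : V) (n : Ab χ hc),
    χ t ≠ 1 ∧ (∀ g, ∃ k : ℤ, χ g = χ t ^ k) ∧ ∀ f : ℤ[T;T⁻¹], rho hc t f n = 0 → f = 0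

lemma zpow_eq_one_of_ne {z : Multiplicative ℤ} (hz : z ≠ 1) {k : ℤ} (h : z ^ k = 1) : k = 0 := by
  by_contra hk
  apply hz
  have h1 : k * Multiplicative.toAdd z = 0 := by
    have := congrArg Multiplicative.toAdd h
    simpa using this
  rcases mul_eq_zero.mp h1 with h2 | h2
  · exact absurd h2 hk
  · exact Multiplicative.toAdd.injective h2

/-- every element is a product of a kernel element and a power of `t` -/
lemma exists_decomp (hc : KerComm χ) {t : V} (htg : ∀ g, ∃ k : ℤ, χ g = χ t ^ k) (g : V) :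
    ∃ (k : ℤ) (a : Ab χ hc), g = a.val * t ^ k := by
  obtain ⟨k, hk⟩ := htg g
  refine ⟨k, Ab.mk (g * (t ^ k)⁻¹) (by rw [map_mul, map_inv, map_zpow, ← hk, mul_inv_cancel]), ?_⟩
  simp

end

section

variable {V : Type*} [Group V] {χ : V →* Multiplicative ℤ}

/-- the module structure on the kernel -/
@[reducible] noncomputable def abModule (hc : KerComm χ) (t : V) :
    Module (ℤ[T;T⁻¹]) (Ab χ hc) := Module.compHom _ (rho hc t)

/-- the kernel is a finitely generated `ℤ[T;T⁻¹]`-module if `V` is finitely generated -/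
lemma abModule_finite (hV : Group.FG V) (hc : KerComm χ) {t : V} (ht : χ t ≠ 1)
    (htg : ∀ g, ∃ k : ℤ, χ g = χ t ^ k) :
    @Module.Finite (ℤ[T;T⁻¹]) (Ab χ hc) _ _ (abModule hc t) := by
  classical
  let _ := abModule hc t
  have hsmul : ∀ (r : ℤ[T;T⁻¹]) (a : Ab χ hc), r • a = rho hc t r a := fun r a => rfl
  obtain ⟨S, hS⟩ := hV.out
  choose k a hka using exists_decomp hc htg
  let W : Submodule (ℤ[T;T⁻¹]) (Ab χ hc) := Submodule.span _ ((S.image a : Finset _) : Set (Ab χ hc))
  have key : ∀ g : V, ∃ (m : ℤ) (b : Ab χ hc), b ∈ W ∧ g = b.val * t ^ m := by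
    intro g
    have hg : g ∈ Subgroup.closure (S : Set V) := by rw [hS]; trivial
    induction hg using Subgroup.closure_induction with
    | mem x hx =>
      refine ⟨k x, a x, Submodule.subset_span ?_, hka x⟩
      rw [Finset.coe_image]
      exact ⟨x, hx, rfl⟩
    | one => exact ⟨0, 0, W.zero_mem, by simp⟩
    | mul x y _ _ hx hy =>
      obtain ⟨m, b, hb, hxb⟩ := hx
      obtain ⟨m', b', hb', hyb⟩ := hy
      refine ⟨m + m', b + (T m : ℤ[T;T⁻¹]) • b', W.add_mem hb (W.smul_mem _ hb'), ?_⟩
      rw [hxb, hyb, Ab.val_add, hsmul, rho_T_val, zpow_add]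
      group
    | inv x _ hx =>
      obtain ⟨m, b, hb, hxb⟩ := hx
      refine ⟨-m, (T (-m) : ℤ[T;T⁻¹]) • (-b), W.smul_mem _ (W.neg_mem hb), ?_⟩
      rw [hxb, hsmul, rho_T_val, Ab.val_neg]
      group
  refine ⟨⟨S.image a, ?_⟩⟩
  rw [eq_top_iff]
  intro c _
  obtain ⟨m, b, hb, hcb⟩ := key c.val
  have h1 : χ t ^ m = 1 := by
    have := congrArg χ hcb
    rw [map_mul, map_zpow, Ab.map_val, Ab.map_val, one_mul] at this
    exact this.symm
  have h2 := zpow_eq_one_of_ne ht h1
  subst h2
  have : c = b := by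
    apply Ab.ext
    rw [hcb]; simp
  rw [this]
  exact hb

/-- Every group in the class `K` has a homomorphism onto `ℤ` with finitely generated kernel. -/
theorem InK.exists_hom (hK : InK V) :
    ∃ ψ : V →* Multiplicative ℤ, Function.Surjective ψ ∧ ψ.ker.FG := by
  classical
  obtain ⟨hV, χ, hc, t, n, ht, htg, hn⟩ := hK
  let _ := abModule hc t
  have hfin := abModule_finite hV hc ht htg
  have hsmul : ∀ (r : ℤ[T;T⁻¹]) (a : Ab χ hc), r • a = rho hc t r a := fun r a => rfl
  obtain ⟨ψ₀, hψ, hψT⟩ := exists_invariant_surjection (A := Ab χ hc) n (fun r hr => hn r hr)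
  have hψTn : ∀ (m : ℤ) (a : Ab χ hc), ψ₀ ((T m : ℤ[T;T⁻¹]) • a) = ψ₀ a := by
    have hpos : ∀ (m : ℕ) (a : Ab χ hc), ψ₀ ((T (m : ℤ) : ℤ[T;T⁻¹]) • a) = ψ₀ a := by
      intro m
      induction m with
      | zero => intro a; simp
      | succ m ih =>
        intro a
        push_cast
        rw [T_add, mul_smul, ih, hψT]
    intro m a
    obtain ⟨m, rfl | rfl⟩ := Int.eq_nat_or_neg m
    · exact hpos m a
    · have h1 := hpos m ((T (-(m : ℤ)) : ℤ[T;T⁻¹]) • a)
      rw [← mul_smul, ← T_add, add_neg_cancel, T_zero, one_smul] at h1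
      exact h1.symm
  choose k a hka using exists_decomp hc htg
  have huniq : ∀ (g : V) (m : ℤ) (b : Ab χ hc), g = b.val * t ^ m → k g = m ∧ a g = b := by
    intro g m b hg
    have h1 : χ t ^ (k g - m) = 1 := by
      have e1 := congrArg χ (hka g)
      have e2 := congrArg χ hg
      rw [map_mul, map_zpow, Ab.map_val, one_mul] at e1 e2
      rw [zpow_sub, ← e1, ← e2, mul_inv_cancel]
    have h2 := zpow_eq_one_of_ne ht h1
    have h3 : k g = m := by omega
    refine ⟨h3, ?_⟩
    apply Ab.ext
    have e1 := hka g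
    rw [h3] at e1
    exact mul_right_cancel (e1.symm.trans hg)
  have hmul : ∀ g h : V, a (g * h) = a g + (T (k g) : ℤ[T;T⁻¹]) • a h := by
    intro g h
    apply (huniq (g * h) (k g + k h) _ _).2
    rw [Ab.val_add, hsmul, rho_T_val, zpow_add]
    conv_lhs => rw [hka g, hka h]
    group
  let ψ : V →* Multiplicative ℤ := MonoidHom.mk' (fun g => Multiplicative.ofAdd (ψ₀ (a g))) (by
    intro g h
    rw [hmul, map_add, hψTn, ofAdd_add])
  have hψval : ∀ b : Ab χ hc, ψ b.val = Multiplicative.ofAdd (ψ₀ b) := by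
    intro b
    change Multiplicative.ofAdd (ψ₀ (a b.val)) = _
    rw [(huniq b.val 0 b (by simp)).2]
  have hψt : ψ t = 1 := by
    change Multiplicative.ofAdd (ψ₀ (a t)) = _
    rw [(huniq t 1 0 (by simp)).2, map_zero, ofAdd_zero]
  refine ⟨ψ, ?_, ?_⟩
  · intro z
    obtain ⟨b, hb⟩ := hψ (Multiplicative.toAdd z)
    exact ⟨b.val, by rw [hψval, hb]; rfl⟩
  · -- the kernel of `ψ₀` is a submodule
    let N1 : Submodule (ℤ[T;T⁻¹]) (Ab χ hc) :=
      { carrier := {b | ψ₀ b = 0}
        zero_mem' := map_zero _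
        add_mem' := by
          intro b c hb hc
          rw [Set.mem_ofPred_eq] at *
          rw [map_add, hb, hc, add_zero]
        smul_mem' := by
          intro r b hb
          rw [Set.mem_ofPred_eq] at *
          induction r using LaurentPolynomial.induction_on' with
          | add p q hp hq => rw [add_smul, map_add, hp, hq, add_zero]
          | C_mul_T m c =>
            rw [mul_smul, hsmul (C c), rho_C, map_zsmul, hψTn, hb, smul_zero] }
    obtain ⟨S1, hS1⟩ : N1.FG := IsNoetherian.noetherian N1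
    refine ⟨insert t (S1.image Ab.val), ?_⟩
    apply le_antisymm
    · rw [Subgroup.closure_le]
      intro g hg
      rw [Finset.coe_insert, Finset.coe_image, Set.mem_insert_iff, Set.mem_image] at hg
      rcases hg with rfl | ⟨b, hb, rfl⟩
      · exact hψt
      · rw [SetLike.mem_coe, MonoidHom.mem_ker, hψval]
        have : b ∈ N1 := by rw [← hS1]; exact Submodule.subset_span hb
        have h0 : ψ₀ b = 0 := this
        rw [h0, ofAdd_zero]
    · intro g hg
      rw [MonoidHom.mem_ker] at hg
      set Cl := Subgroup.closure ((insert t (S1.image Ab.val) : Finset V) : Set V) with hCl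
      have htC : t ∈ Cl := Subgroup.subset_closure (by simp)
      have hag : a g ∈ N1 := by
        have : Multiplicative.ofAdd (ψ₀ (a g)) = 1 := hg
        exact Multiplicative.ofAdd.injective this
      have hall : ∀ b : Ab χ hc, b ∈ N1 → b.val ∈ Cl := by
        intro b hb
        rw [← hS1] at hb
        induction hb using Submodule.span_induction with
        | mem x hx =>
          apply Subgroup.subset_closure
          rw [Finset.coe_insert, Finset.coe_image]
          exact Set.mem_insert_of_mem _ ⟨x, hx, rfl⟩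
        | zero => rw [Ab.val_zero]; exact Cl.one_mem
        | add x y _ _ hx hy => rw [Ab.val_add]; exact Cl.mul_mem hx hy
        | smul r x _ hx => rw [hsmul]; exact rho_mem hc Cl htC hx r
      rw [hka g]
      exact Cl.mul_mem (hall _ hag) (Cl.zpow_mem htC _)

end

end Pool.Agent.Lib.MP_d66326_al
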