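import Mathlib

set_option autoImplicit false

/-!
Finitely generated modules over the ring `ℤ[T;T⁻¹]`.
-/

namespace Pool.Agent.Lib.MP_d66326_al

open LaurentPolynomial Polynomial

/-- the ring of integral Laurent polynomials is Noetherian -/
instance instNoethLaurent : IsNoetherianRing (ℤ[T;T⁻¹]) :=
  IsLocalization.isNoetherianRing (Submonoid.powers (X : ℤ[X])) _ inferInstance

instance instDomLaurent : IsDomain (ℤ[T;T⁻¹]) :=
  IsLocalization.isDomain_of_le_nonZeroDivisors (R := ℤ[X]) (S := ℤ[T;T⁻¹])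
    (M := Submonoid.powers (X : ℤ[X])) (by
      rintro _ ⟨n, rfl⟩
      exact mem_nonZeroDivisors_of_ne_zero (pow_ne_zero _ Polynomial.X_ne_zero))

/-- the augmentation `T ↦ 1` -/
noncomputable def aug : ℤ[T;T⁻¹] →+* ℤ := LaurentPolynomial.eval₂ (RingHom.id ℤ) (1 : ℤˣ)

@[simp] lemma aug_T (n : ℤ) : aug (T n) = 1 := by
  rw [aug, LaurentPolynomial.eval₂_T]; simp

lemma aug_intCast (n : ℤ) : aug (n : ℤ[T;T⁻¹]) = n := by simp

/-- A finitely generated module over `ℤ[T;T⁻¹]` containing an element with trivial annihilator has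
a `T`-invariant additive surjection to `ℤ`. -/
theorem exists_invariant_surjection {A : Type*} [AddCommGroup A] [Module (ℤ[T;T⁻¹]) A]
    [Module.Finite (ℤ[T;T⁻¹]) A] (a0 : A) (h0 : ∀ r : ℤ[T;T⁻¹], r • a0 = 0 → r = 0) :
    ∃ ψ : A →+ ℤ, Function.Surjective ψ ∧ ∀ a, ψ ((T 1 : ℤ[T;T⁻¹]) • a) = ψ a := by
  classical
  set I : Ideal (ℤ[T;T⁻¹]) := Ideal.span {T 1 - 1} with hI
  set B := A ⧸ (I • (⊤ : Submodule (ℤ[T;T⁻¹]) A)) with hB
  -- `T` acts trivially on `B`
  have hT1 : ∀ b : B, (T 1 : ℤ[T;T⁻¹]) • b = b := by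
    intro b
    obtain ⟨a, rfl⟩ := Submodule.Quotient.mk_surjective _ b
    rw [← Submodule.Quotient.mk_smul]
    refine (Submodule.Quotient.eq _).mpr ?_
    have : (T 1 : ℤ[T;T⁻¹]) • a - a = (T 1 - 1 : ℤ[T;T⁻¹]) • a := by rw [sub_smul, one_smul]
    rw [this]
    exact Submodule.smul_mem_smul (Ideal.subset_span rfl) Submodule.mem_top
  have hTn : ∀ (n : ℤ) (b : B), (T n : ℤ[T;T⁻¹]) • b = b := by
    have hpos : ∀ (n : ℕ) (b : B), (T (n : ℤ) : ℤ[T;T⁻¹]) • b = b := by
      intro n
      induction n with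
      | zero => intro b; simp
      | succ n ih =>
        intro b
        push_cast
        rw [T_add, mul_smul, hT1, ih]
    intro n b
    obtain ⟨m, rfl | rfl⟩ := Int.eq_nat_or_neg n
    · exact hpos m b
    · have h1 := hpos m ((T (-(m : ℤ)) : ℤ[T;T⁻¹]) • b)
      rw [← mul_smul, ← T_add, add_neg_cancel, T_zero, one_smul] at h1
      exact h1.symm
  have hsmul : ∀ (r : ℤ[T;T⁻¹]) (b : B), r • b = (aug r) • b := by
    intro r b
    induction r using LaurentPolynomial.induction_on' with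
    | add p q hp hq => rw [add_smul, hp, hq, map_add, add_smul]
    | C_mul_T n a =>
      rw [mul_smul, hTn, map_mul, aug_T, mul_one]
      have : (C a : ℤ[T;T⁻¹]) = ((a : ℤ) : ℤ[T;T⁻¹]) := by simp
      rw [this, aug_intCast, Int.cast_smul_eq_zsmul]
  -- `B` is finite over `ℤ`
  have hfin : Module.Finite ℤ B := by
    obtain ⟨S, hS⟩ := (inferInstance : Module.Finite (ℤ[T;T⁻¹]) B).fg_top
    refine ⟨⟨S, ?_⟩⟩
    rw [eq_top_iff]
    intro b _
    have hb : b ∈ Submodule.span (ℤ[T;T⁻¹]) (S : Set B) := by rw [hS]; exact Submodule.mem_top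
    induction hb using Submodule.span_induction with
    | mem x hx => exact Submodule.subset_span hx
    | zero => exact Submodule.zero_mem _
    | add x y _ _ hx hy => exact Submodule.add_mem _ (hx trivial) (hy trivial)
    | smul r x _ hx => rw [hsmul]; exact Submodule.smul_mem _ _ (hx trivial)
  -- `B` is not a torsion group
  have hntors : ¬ Module.IsTorsion ℤ B := by
    intro htors
    obtain ⟨d, hd1, hd2⟩ := Submodule.annihilator_top_inter_nonZeroDivisors htors
    have hd0 : d ≠ 0 := nonZeroDivisors.ne_zero hd2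
    have hdB : ∀ b : B, d • b = 0 := fun b => Submodule.mem_annihilator.mp hd1 b Submodule.mem_top
    have hdA : ∀ a : A, ((d : ℤ) : ℤ[T;T⁻¹]) • a ∈ I • (⊤ : Submodule (ℤ[T;T⁻¹]) A) := by
      intro a
      rw [← Submodule.Quotient.mk_eq_zero, Submodule.Quotient.mk_smul, Int.cast_smul_eq_zsmul]
      exact hdB _
    obtain ⟨p, hpm, -, hpc, hp⟩ :=
      LinearMap.exists_monic_and_natDegree_eq_and_coeff_mem_pow_and_aeval_eq_zero (ℤ[T;T⁻¹])
        (algebraMap (ℤ[T;T⁻¹]) (Module.End (ℤ[T;T⁻¹]) A) ((d : ℤ) : ℤ[T;T⁻¹])) I (by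
          rintro _ ⟨a, rfl⟩
          exact hdA a)
    rw [Polynomial.aeval_algebraMap_apply] at hp
    have h1 : (Polynomial.aeval ((d : ℤ) : ℤ[T;T⁻¹]) p) • a0 = 0 := by
      have := LinearMap.congr_fun hp a0
      simpa [Module.algebraMap_end_apply] using this
    have h2 := h0 _ h1
    have h3 : aug (Polynomial.aeval ((d : ℤ) : ℤ[T;T⁻¹]) p) = d ^ p.natDegree := by
      rw [Polynomial.aeval_eq_sum_range, map_sum, Finset.sum_range_succ]
      have hz : ∀ k ∈ Finset.range p.natDegree,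
          aug (p.coeff k • ((d : ℤ) : ℤ[T;T⁻¹]) ^ k) = 0 := by
        intro k hk
        rw [Finset.mem_range] at hk
        have hmem : p.coeff k ∈ I := by
          have := hpc k
          obtain ⟨m, hm⟩ : ∃ m, p.natDegree - k = m + 1 := ⟨p.natDegree - k - 1, by omega⟩
          rw [hm] at this
          exact Ideal.pow_le_self (by omega) this
        have hker : aug (p.coeff k) = 0 := by
          rw [hI, Ideal.mem_span_singleton] at hmem
          obtain ⟨c, hc⟩ := hmem
          rw [hc, map_mul, map_sub, aug_T, map_one, sub_self, zero_mul]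
        rw [smul_eq_mul, map_mul, hker, zero_mul]
      rw [Finset.sum_eq_zero hz, zero_add, hpm.coeff_natDegree, one_smul, map_pow, aug_intCast]
    rw [h2, map_zero] at h3
    exact pow_ne_zero _ hd0 h3.symm
  -- the torsion free quotient
  set B' := B ⧸ (Submodule.torsion ℤ B) with hB'
  have : Module.IsTorsionFree ℤ B' := inferInstance
  have : Module.Free ℤ B' := inferInstance
  have hnt : Nontrivial B' := by
    rw [hB', Submodule.Quotient.nontrivial_iff]
    intro h
    apply hntors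
    exact (Submodule.isTorsion'_iff_torsion'_eq_top (nonZeroDivisors ℤ)).mpr h
  let b := Module.Free.chooseBasis ℤ B'
  obtain ⟨i⟩ : Nonempty (Module.Free.ChooseBasisIndex ℤ B') := b.index_nonempty
  let ψ : A →+ ℤ := (b.coord i).toAddMonoidHom.comp
    ((Submodule.mkQ (Submodule.torsion ℤ B)).toAddMonoidHom.comp
      (Submodule.mkQ (I • (⊤ : Submodule (ℤ[T;T⁻¹]) A))).toAddMonoidHom)
  refine ⟨ψ, ?_, ?_⟩
  · intro n
    obtain ⟨x, hx⟩ := Submodule.mkQ_surjective _ (n • b i)
    obtain ⟨y, hy⟩ := Submodule.mkQ_surjective _ x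
    refine ⟨y, ?_⟩
    change b.coord i (Submodule.mkQ _ (Submodule.mkQ _ y)) = n
    rw [hy, hx]
    simp
  · intro a
    change b.coord i (Submodule.mkQ _ (Submodule.mkQ _ ((T 1 : ℤ[T;T⁻¹]) • a))) =
      b.coord i (Submodule.mkQ _ (Submodule.mkQ _ a))
    rw [map_smul, hT1]

end Pool.Agent.Lib.MP_d66326_al
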