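import Pool.Agent.Lib.MP_d66326_al.LineSplitting

set_option autoImplicit false

/-!
Sanity checks for the definitions of splittings and of strong accessibility.
-/

namespace Pool.Agent.Lib.MP_d66326_al

/-- a hierarchy which has terminated at stage `n` has also terminated at stage `n + 1` -/
theorem TerminatesWithin.succ {C : (H : Type) → [Group H] → Prop} (n : ℕ) :
    ∀ (G : Type) [Group G], TerminatesWithin C n G → TerminatesWithin C (n + 1) G := by
  induction n with
  | zero => intro G _ h; exact Or.inl h
  | succ n ih =>
    intro G _ h
    rcases h with h | ⟨S, hS⟩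
    · exact Or.inl h
    · exact Or.inr ⟨S, fun x => ih _ (hS x)⟩

/-- the trivial group has no nontrivial splitting -/
theorem isEmpty_splitting_of_subsingleton {C : (H : Type) → [Group H] → Prop} (G : Type) [Group G]
    [Subsingleton G] : IsEmpty (Splitting C G) := by
  refine ⟨fun S => ?_⟩
  obtain ⟨x⟩ := S.isTree.connected.nonempty
  obtain ⟨g, hg⟩ := S.nontrivial x
  apply hg
  rw [Subsingleton.elim g 1, one_smul]

/-- the trivial group is strongly accessible -/
theorem stronglyAccessible_of_subsingleton {C : (H : Type) → [Group H] → Prop} (G : Type) [Group G]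
    [Subsingleton G] : StronglyAccessible C G :=
  ⟨0, isEmpty_splitting_of_subsingleton G⟩

/-- the infinite cyclic group has a nontrivial splitting over finitely generated groups, and is
strongly accessible: its hierarchy ends with trivial groups after one step -/
theorem stronglyAccessible_int : Nonempty (Splitting FGClass (Multiplicative ℤ)) ∧
    StronglyAccessible FGClass (Multiplicative ℤ) := by
  have hker : (MonoidHom.id (Multiplicative ℤ)).ker = ⊥ := by
    ext x; rw [MonoidHom.mem_ker, Subgroup.mem_bot]; rfl
  have hfg : (MonoidHom.id (Multiplicative ℤ)).ker.FG := by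
    rw [hker]; exact ⟨∅, by simp⟩
  let S := splittingOfHom (MonoidHom.id (Multiplicative ℤ)) Function.surjective_id hfg
  refine ⟨⟨S⟩, 1, Or.inr ⟨S, fun x => ?_⟩⟩
  have hsub : Subsingleton ↥(MulAction.stabilizer (Multiplicative ℤ) x) := by
    have h : ∀ g : Multiplicative ℤ, g • x = x → g = 1 := by
      intro g hg
      apply Multiplicative.toAdd.injective
      let y : ℤ := x
      have h1 : Multiplicative.toAdd g + y = y := hg
      rw [toAdd_one]
      omega
    refine ⟨fun g g' => Subtype.ext ?_⟩
    rw [h _ g.2, h _ g'.2]
  exact isEmpty_splitting_of_subsingleton _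

end Pool.Agent.Lib.MP_d66326_al
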