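import Mathlib

set_option autoImplicit false

/-!
Transcendental elements of the field of rational functions.
-/

namespace Pool.Agent.Lib.MP_d66326_al

open LaurentPolynomial Polynomial

/-- the field of rational functions over the rationals -/
abbrev QX := RatFunc ℚ

lemma qx_X_ne_zero : (RatFunc.X : QX) ≠ 0 := RatFunc.X_ne_zero

lemma qx_one_add_X_ne_zero : (1 + RatFunc.X : QX) ≠ 0 := by
  intro h
  have h1 : (1 + RatFunc.X : QX) = algebraMap ℚ[X] QX (1 + X) := by
    rw [map_add, map_one, RatFunc.algebraMap_X]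
  rw [h1, map_eq_zero_iff _ (RatFunc.algebraMap_injective ℚ)] at h
  have := congrArg (Polynomial.eval 0) h
  simp at this

lemma qx_ne_C (p q : ℤ) (h : p ≠ 0 ∨ q ≠ 0) :
    ¬ ∃ c : ℚ, ((RatFunc.X : QX) ^ p * (1 + RatFunc.X) ^ q) = RatFunc.C c := by
  rintro ⟨c, hc⟩
  have hc0 : c ≠ 0 := by
    rintro rfl
    rw [map_zero, mul_eq_zero] at hc
    rcases hc with hc | hc
    · exact zpow_ne_zero _ qx_X_ne_zero hc
    · exact zpow_ne_zero _ qx_one_add_X_ne_zero hc
  -- clear denominators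
  obtain ⟨p1, p2, hp, hp12⟩ : ∃ p1 p2 : ℕ, p = p1 - p2 ∧ (p1 = 0 ∨ p2 = 0) :=
    ⟨p.toNat, (-p).toNat, by omega, by omega⟩
  obtain ⟨q1, q2, hq, hq12⟩ : ∃ q1 q2 : ℕ, q = q1 - q2 ∧ (q1 = 0 ∨ q2 = 0) :=
    ⟨q.toNat, (-q).toNat, by omega, by omega⟩
  have key : (X ^ p1 * (1 + X) ^ q1 : ℚ[X]) = Polynomial.C c * (X ^ p2 * (1 + X) ^ q2) := by
    apply RatFunc.algebraMap_injective ℚ
    rw [map_mul, map_mul, map_mul, map_pow, map_pow, map_pow, map_pow, map_add, map_one,
      RatFunc.algebraMap_X, RatFunc.algebraMap_C, ← hc, hp, hq, zpow_sub₀ qx_X_ne_zero,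
      zpow_sub₀ qx_one_add_X_ne_zero]
    have h1 := qx_X_ne_zero
    have h2 := qx_one_add_X_ne_zero
    simp only [zpow_natCast]
    field_simp
  have e0 := congrArg (Polynomial.eval 0) key
  have e1 := congrArg (Polynomial.eval (-1)) key
  simp only [eval_mul, eval_pow, eval_X, eval_add, eval_one, eval_C, add_zero, one_pow,
    mul_one] at e0
  simp only [eval_mul, eval_pow, eval_X, eval_add, eval_one, eval_C, add_neg_cancel] at e1
  have hp1 : p1 = 0 := by
    by_contra h0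
    have : p2 = 0 := by omega
    rw [zero_pow h0, this, pow_zero, mul_one] at e0
    exact hc0 e0.symm
  have hp2 : p2 = 0 := by
    by_contra h0
    rw [zero_pow h0, hp1, pow_zero, mul_zero] at e0
    exact one_ne_zero e0
  have hq1 : q1 = 0 := by
    by_contra h0
    have : q2 = 0 := by omega
    rw [zero_pow h0, this, hp1, hp2] at e1
    simp at e1
    exact hc0 e1.symm
  have hq2 : q2 = 0 := by
    by_contra h0
    rw [zero_pow h0, hq1, hp1, hp2] at e1
    simp at e1
  omega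

/-- a product of powers of `X` and `1 + X` is transcendental over the integers -/
lemma qx_transcendental (p q : ℤ) (h : p ≠ 0 ∨ q ≠ 0) (f : ℤ[X])
    (hf : f.eval₂ (Int.castRingHom QX) ((RatFunc.X : QX) ^ p * (1 + RatFunc.X) ^ q) = 0) :
    f = 0 := by
  have htr := RatFunc.transcendental_of_ne_C _ (qx_ne_C p q h)
  have h3 : f.map (Int.castRingHom ℚ) = 0 := by
    by_contra h0
    apply htr
    refine ⟨f.map (Int.castRingHom ℚ), h0, ?_⟩
    change Polynomial.eval₂ _ _ _ = _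
    rw [Polynomial.eval₂_map, ← hf]
    congr 1
    exact RingHom.ext_int _ _
  rwa [Polynomial.map_eq_zero_iff (Int.castRingHom ℚ).injective_int] at h3

/-- evaluation of Laurent polynomials -/
noncomputable def ev (y : QXˣ) : ℤ[T;T⁻¹] →+* QX := LaurentPolynomial.eval₂ (Int.castRingHom QX) y

lemma ev_T (y : QXˣ) (n : ℤ) : ev y (T n) = ((y ^ n : QXˣ) : QX) := LaurentPolynomial.eval₂_T _ _ _

lemma ev_C (y : QXˣ) (n : ℤ) : ev y (C n) = (n : QX) := by
  rw [ev, LaurentPolynomial.eval₂_C]; rfl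

lemma ev_eq_zero {y : QXˣ} {p q : ℤ} (h : p ≠ 0 ∨ q ≠ 0)
    (hy : (y : QX) = (RatFunc.X : QX) ^ p * (1 + RatFunc.X) ^ q) {f : ℤ[T;T⁻¹]}
    (hf : ev y f = 0) : f = 0 := by
  obtain ⟨n, g, hg⟩ := LaurentPolynomial.exists_T_pow f
  have h1 : ev y (toLaurent g) = 0 := by rw [hg, map_mul, hf, zero_mul]
  rw [ev, LaurentPolynomial.eval₂_toLaurent, hy] at h1
  have h4 := qx_transcendental p q h g h1
  rw [h4, map_zero] at hg
  have h5 : f * T (n : ℤ) * T (-(n : ℤ)) = 0 := by rw [← hg, zero_mul]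
  rw [mul_T_assoc, add_neg_cancel, T_zero, mul_one] at h5
  exact h5

end Pool.Agent.Lib.MP_d66326_al
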