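import Pool.Agent.Lib.MP_d66326_al.TreeLine

set_option autoImplicit false

/-!
Groups acting on trees: fixed points and axes.
-/

namespace Pool.Agent.Lib.MP_d66326_al

open SimpleGraph

variable {G : Type*} [Group G] {X : Type*} [MulAction G X] {T : SimpleGraph X}

/-- an action by automorphisms of a tree, without inversions -/
structure TreeAct (G : Type*) [Group G] (X : Type*) [MulAction G X] (T : SimpleGraph X) : Prop where
  isTree : T.IsTree
  adj_smul : ∀ (g : G) (x y : X), T.Adj x y → T.Adj (g • x) (g • y)
  no_inv : ∀ (g : G) (x y : X), T.Adj x y → ¬ (g • x = y ∧ g • y = x)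

namespace TreeAct

lemma dist_smul (h : TreeAct G X T) (g : G) (x y : X) : T.dist (g • x) (g • y) = T.dist x y := by
  have key : ∀ (g : G) (x y : X), T.dist (g • x) (g • y) ≤ T.dist x y := by
    intro g x y
    obtain ⟨p, hp, hpl⟩ := h.isTree.connected.exists_path_of_dist x y
    let f : T →g T := ⟨fun z => g • z, fun {a b} hab => h.adj_smul g a b hab⟩
    have := dist_le (p.map f)
    rw [Walk.length_map, hpl] at this
    exact this
  apply le_antisymm (key g x y)
  have := key g⁻¹ (g • x) (g • y)
  simpa using this

/-- a geodesic with fixed end points is fixed pointwise -/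
lemma fix_between (h : TreeAct G X T) {g : G} {x y z : X} (hx : g • x = x) (hy : g • y = y)
    (hz : T.dist x z + T.dist z y = T.dist x y) : g • z = z := by
  have e1 : T.dist x (g • z) = T.dist x z := by
    conv_lhs => rw [← hx]
    exact h.dist_smul _ _ _
  have e2 : T.dist (g • z) y = T.dist z y := by
    conv_lhs => rw [← hy]
    exact h.dist_smul _ _ _
  apply between_unique h.isTree (x := x) (y := y) _ hz
  · rw [e1]
  · rw [e1, e2, hz]

end TreeAct

/-- convex sets of vertices -/
def Conv (T : SimpleGraph X) (A : Set X) : Prop :=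
  ∀ x ∈ A, ∀ y ∈ A, ∀ z, T.dist x z + T.dist z y = T.dist x y → z ∈ A

/-- the gate (nearest point) of a convex set -/
lemma Conv.exists_gate (hT : T.IsTree) {A : Set X} (hA : Conv T A) (hne : A.Nonempty) (p : X) :
    ∃ q ∈ A, ∀ z ∈ A, T.dist p q + T.dist q z = T.dist p z := by
  obtain ⟨q, hqA, hq⟩ : ∃ q ∈ A, ∀ z ∈ A, T.dist p q ≤ T.dist p z := by
    classical
    obtain ⟨a, ha⟩ := hne
    have hex : ∃ n : ℕ, ∃ q ∈ A, T.dist p q = n := ⟨_, a, ha, rfl⟩
    obtain ⟨q, hqA, hq⟩ := Nat.find_spec hex
    refine ⟨q, hqA, fun z hz => ?_⟩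
    rw [hq]
    exact Nat.find_min' hex ⟨z, hz, rfl⟩
  refine ⟨q, hqA, fun z hz => ?_⟩
  obtain ⟨m, h1, h2, h3⟩ := exists_median hT p q z
  have hm : m ∈ A := hA q hqA z hz m h3
  have h4 := hq m hm
  have h5 : T.dist m q = 0 := by omega
  have h6 : m = q := (hT.connected.dist_eq_zero_iff).mp h5
  rw [h6] at h2
  exact h2

/-- an automorphism fixing `p` and preserving `A` fixes the gate of `p` in `A` -/
lemma TreeAct.fix_gate (h : TreeAct G X T) {A : Set X} {g : G} (hgA : ∀ x ∈ A, g • x ∈ A)
    {p q : X} (hp : g • p = p) (hq : q ∈ A)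
    (hgate : ∀ z ∈ A, T.dist p q + T.dist q z = T.dist p z) : g • q = q := by
  have h1 := hgate _ (hgA q hq)
  have h2 : T.dist p (g • q) = T.dist p q := by
    conv_lhs => rw [← hp]
    exact h.dist_smul _ _ _
  have h3 : T.dist q (g • q) = 0 := by omega
  exact ((h.isTree.connected.dist_eq_zero_iff).mp h3).symm

/-- two intersecting convex sets at the same distance of `p` have the same gate -/
lemma gate_unique (hT : T.IsTree) {A B : Set X} {p q q' z : X} (hzA : z ∈ A) (hzB : z ∈ B)
    (hq : ∀ z ∈ A, T.dist p q + T.dist q z = T.dist p z)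
    (hq' : ∀ z ∈ B, T.dist p q' + T.dist q' z = T.dist p z) (hd : T.dist p q = T.dist p q') :
    q = q' :=
  between_unique hT (hq z hzA) (hq' z hzB) hd

/-- the fixed set of a set of group elements -/
def FixSet (X : Type*) [MulAction G X] (S : Set G) : Set X := {x | ∀ g ∈ S, g • x = x}

lemma TreeAct.conv_fixSet (h : TreeAct G X T) (S : Set G) : Conv T (FixSet X S) := by
  intro x hx y hy z hz g hg
  exact h.fix_between (hx g hg) (hy g hg) hz

/-- a finite set of commuting elliptic elements has a common fixed vertex -/
lemma TreeAct.exists_common_fix (h : TreeAct G X T) (S : Finset G)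
    (hcomm : ∀ a ∈ S, ∀ b ∈ S, a * b = b * a) (hell : ∀ a ∈ S, ∃ x : X, a • x = x) :
    (FixSet X (S : Set G)).Nonempty := by
  classical
  induction S using Finset.induction_on with
  | empty =>
    obtain ⟨x⟩ := h.isTree.connected.nonempty
    exact ⟨x, fun g hg => by simp at hg⟩
  | insert a S ha ih =>
    have ih' := ih (fun a ha b hb => hcomm a (Finset.mem_insert_of_mem ha) b
      (Finset.mem_insert_of_mem hb)) (fun a ha => hell a (Finset.mem_insert_of_mem ha))
    obtain ⟨p, hp⟩ := hell a (Finset.mem_insert_self a S)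
    obtain ⟨q, hqA, hq⟩ := (h.conv_fixSet (S : Set G)).exists_gate h.isTree ih' p
    have hgA : ∀ x ∈ FixSet X (S : Set G), a • x ∈ FixSet X (S : Set G) := by
      intro x hx g hg
      rw [← mul_smul, hcomm g (Finset.mem_insert_of_mem hg) a (Finset.mem_insert_self a S),
        mul_smul, hx g hg]
    have hfix := h.fix_gate hgA hp hqA hq
    refine ⟨q, fun g hg => ?_⟩
    rw [Finset.mem_coe, Finset.mem_insert] at hg
    rcases hg with rfl | hg
    · exact hfix
    · exact hqA g hg

/-- If `g` is elliptic, and the fixed set of `S` meets its `g`-translate, then any fixed vertex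
of `g` has a gate in the fixed set of `S` that is fixed by `g`. -/
lemma TreeAct.fix_gate_of_inter (h : TreeAct G X T) {A : Set X}
    {g : G} {p q z : X} (hp : g • p = p)
    (hgate : ∀ z ∈ A, T.dist p q + T.dist q z = T.dist p z) (hz : z ∈ A) (hgz : g⁻¹ • z ∈ A) :
    g • q = q := by
  have hB : ∀ w ∈ {w | g⁻¹ • w ∈ A}, T.dist p (g • q) + T.dist (g • q) w = T.dist p w := by
    intro w hw
    have := hgate _ hw
    have e1 : T.dist p (g • q) = T.dist p q := by
      conv_lhs => rw [← hp]
      exact h.dist_smul _ _ _
    have e2 : T.dist (g • q) w = T.dist q (g⁻¹ • w) := by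
      rw [← h.dist_smul g q (g⁻¹ • w), smul_inv_smul]
    have e3 : T.dist p w = T.dist p (g⁻¹ • w) := by
      rw [← h.dist_smul g p (g⁻¹ • w), smul_inv_smul, hp]
    rw [e1, e2, e3, this]
  have e1 : T.dist p (g • q) = T.dist p q := by
    conv_lhs => rw [← hp]
    exact h.dist_smul _ _ _
  exact (gate_unique h.isTree hz (B := {w | g⁻¹ • w ∈ A}) hgz hgate hB e1.symm).symm

/-! ### Axes -/

/-- local geodesics are geodesics -/
lemma isLine_of_local (hT : T.IsTree) {L : ℤ → X} (hadj : ∀ i, T.Adj (L i) (L (i + 1)))
    (hne : ∀ i, L i ≠ L (i + 2)) : IsLine T L := by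
  have key : ∀ (n : ℕ) (i : ℤ), T.dist (L i) (L (i + n)) = n := by
    intro n
    induction n using Nat.strong_induction_on with
    | _ n ih =>
      intro i
      match n, ih with
      | 0, _ => simp
      | 1, _ =>
        have := hadj i
        rw [Nat.cast_one]
        exact dist_eq_one_iff_adj.mpr this
      | (n + 2), ih =>
        have h1 := ih (n + 1) (by omega) i
        have h0 := ih n (by omega) i
        have hadj' : T.Adj (L (i + (n + 1 : ℕ))) (L (i + (n + 2 : ℕ))) := by
          have := hadj (i + (n + 1 : ℕ))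
          have e : i + ((n + 1 : ℕ) : ℤ) + 1 = i + ((n + 2 : ℕ) : ℤ) := by push_cast; ring
          rwa [e] at this
        rcases hT.dist_eq_dist_add_one_of_adj (L i) hadj' with h2 | h2
        · exfalso
          have hz : T.dist (L i) (L (i + (n + 2 : ℕ))) = n := by omega
          have hadj0 : T.dist (L (i + (n : ℕ))) (L (i + (n + 1 : ℕ))) = 1 := by
            have := hadj (i + (n : ℕ))
            have e : i + ((n : ℕ) : ℤ) + 1 = i + ((n + 1 : ℕ) : ℤ) := by push_cast; ring
            rw [e] at this
            exact dist_eq_one_iff_adj.mpr this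
          have hadj1 : T.dist (L (i + (n + 2 : ℕ))) (L (i + (n + 1 : ℕ))) = 1 := by
            rw [dist_comm]
            exact dist_eq_one_iff_adj.mpr hadj'
          have : L (i + (n : ℕ)) = L (i + (n + 2 : ℕ)) := by
            apply between_unique hT (x := L i) (y := L (i + (n + 1 : ℕ)))
            · rw [h0, hadj0, h1]
            · rw [hz, hadj1, h1]
            · rw [h0, hz]
          apply hne (i + (n : ℕ))
          rw [this]
          congr 1
          push_cast
          ring
        · rw [h2, h1]
  intro i j
  rcases le_total i j with h | h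
  · have := key (j - i).toNat i
    have e : i + ((j - i).toNat : ℤ) = j := by omega
    rw [e] at this
    omega
  · have := key (i - j).toNat j
    have e : j + ((i - j).toNat : ℤ) = i := by omega
    rw [e, dist_comm] at this
    omega

/-- an automorphism without fixed vertex (and without inversion) has an axis -/
lemma TreeAct.exists_axis (h : TreeAct G X T) (g : G) (hg : ∀ x : X, g • x ≠ x) :
    ∃ (L : ℤ → X) (l : ℤ), 0 < l ∧ IsLine T L ∧ ∀ i, g • L i = L (i + l) := by
  have hT := h.isTree
  obtain ⟨v, hv⟩ : ∃ v : X, ∀ w : X, T.dist v (g • v) ≤ T.dist w (g • w) := by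
    classical
    obtain ⟨x0⟩ := hT.connected.nonempty
    have hex : ∃ n : ℕ, ∃ v : X, T.dist v (g • v) = n := ⟨_, x0, rfl⟩
    obtain ⟨v, hv⟩ := Nat.find_spec hex
    refine ⟨v, fun w => ?_⟩
    rw [hv]
    exact Nat.find_min' hex ⟨w, rfl⟩
  obtain ⟨P, hP, hPl⟩ := hT.connected.exists_path_of_dist v (g • v)
  set l : ℕ := T.dist v (g • v) with hl
  have hlpos : 0 < l := by
    rw [hl]
    exact hT.connected.pos_dist_of_ne (fun e => hg v e.symm)
  set p : ℕ → X := fun k => P.getVert k with hp
  have hp0 : p 0 = v := by simp [hp]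
  have hpl : p l = g • v := by
    rw [hp]
    simp only
    rw [← hPl]
    exact P.getVert_length
  -- distances along the path
  have hpd : ∀ a b : ℕ, a ≤ b → b ≤ l → T.dist (p a) (p b) = b - a := by
    intro a b hab hbl
    have h1 : T.dist v (p a) ≤ a := by
      have := dist_le (P.take a)
      rw [Walk.take_length] at this
      exact this.trans (min_le_left _ _)
    have h2 : T.dist (p b) (g • v) ≤ l - b := by
      have := dist_le (P.drop b)
      rw [Walk.drop_length, hPl] at this
      exact this
    have h3 : T.dist (p a) (p b) ≤ b - a := by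
      have := dist_le ((P.drop a).take (b - a))
      rw [Walk.take_length] at this
      have e : (P.drop a).getVert (b - a) = P.getVert b := by
        rw [Walk.drop_getVert]; congr 1; omega
      rw [e] at this
      exact this.trans (min_le_left _ _)
    have h4 : T.dist v (g • v) ≤ T.dist v (p a) + T.dist (p a) (g • v) :=
      hT.connected.dist_triangle
    have h5 : T.dist (p a) (g • v) ≤ T.dist (p a) (p b) + T.dist (p b) (g • v) :=
      hT.connected.dist_triangle
    omega
  have hlz : (0 : ℤ) < (l : ℤ) := by exact_mod_cast hlpos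
  set L : ℤ → X := fun i => g ^ (i / (l : ℤ)) • p (i % (l : ℤ)).toNat with hL
  -- the formula also holds at the right end of a block
  have hLblock : ∀ (q : ℤ) (r : ℕ), r ≤ l → L (q * l + r) = g ^ q • p r := by
    intro q r hr
    rcases lt_or_eq_of_le hr with hr | hr
    · have e1 : (q * l + r) / (l : ℤ) = q := by
        rw [add_comm, Int.add_mul_ediv_right _ _ (by omega), Int.ediv_eq_zero_of_lt (by omega)
          (by omega)]
        simp
      have e2 : (q * l + r) % (l : ℤ) = r := by
        rw [add_comm, Int.add_mul_emod_self_right, Int.emod_eq_of_lt (by omega) (by omega)]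
      simp only [hL, e1, e2, Int.toNat_natCast]
    · have e0 : (q * l + r) = (q + 1) * (l : ℤ) := by rw [hr]; ring
      have e1 : (q * l + r) / (l : ℤ) = q + 1 := by
        rw [e0]; exact Int.mul_ediv_cancel _ (by omega)
      have e2 : (q * l + r) % (l : ℤ) = 0 := by
        rw [e0]; exact Int.mul_emod_left _ _
      simp only [hL, e1, e2, Int.toNat_zero, hp0]
      rw [hr, hpl, zpow_add_one, mul_smul]
  have hdecomp : ∀ i : ℤ, ∃ (q : ℤ) (r : ℕ), r < l ∧ i = q * l + r := by
    intro i
    refine ⟨i / l, (i % l).toNat, ?_, ?_⟩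
    · have h1 := Int.emod_lt_of_pos i hlz
      have h2 := Int.emod_nonneg i (ne_of_gt hlz)
      omega
    · have h2 := Int.emod_nonneg i (ne_of_gt hlz)
      have h3 := Int.mul_ediv_add_emod i l
      rw [Int.toNat_of_nonneg h2]
      linarith
  refine ⟨L, l, hlz, ?_, ?_⟩
  · apply isLine_of_local hT
    · intro i
      obtain ⟨q, r, hr, rfl⟩ := hdecomp i
      have e : (q * l + r + 1 : ℤ) = q * l + ((r + 1 : ℕ) : ℤ) := by push_cast; ring
      rw [e, hLblock q r hr.le, hLblock q (r + 1) hr]
      apply h.adj_smul
      rw [← dist_eq_one_iff_adj, hpd r (r + 1) (by omega) hr]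
      omega
    · intro i heq
      obtain ⟨q, r, hr, hi⟩ := hdecomp (i + 1)
      rcases Nat.eq_zero_or_pos r with hr0 | hrpos
      · -- junction of two blocks
        subst hr0
        have e1 : i = (q - 1) * l + ((l - 1 : ℕ) : ℤ) := by
          have : ((l - 1 : ℕ) : ℤ) = (l : ℤ) - 1 := by omega
          rw [this]
          have : i = q * l - 1 := by push_cast at hi; linarith
          rw [this]; ring
        have e2 : i + 2 = q * l + ((1 : ℕ) : ℤ) := by push_cast at hi ⊢; linarith
        rw [e2, hLblock q 1 hlpos, e1, hLblock (q - 1) (l - 1) (by omega)] at heq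
        have e3 : g ^ q = g ^ (q - 1) * g := by
          rw [← zpow_add_one]; congr 1; ring
        rw [e3, mul_smul] at heq
        have heq' : p (l - 1) = g • p 1 := smul_left_cancel _ heq
        rcases Nat.lt_or_ge 1 l with hl1 | hl1
        · have h1 := hv (p 1)
          rw [← heq', hpd 1 (l - 1) (by omega) (by omega)] at h1
          omega
        · have hl1' : l = 1 := by omega
          have h0 : p (l - 1) = v := by rw [hl1']; exact hp0
          have h1 : p 1 = g • v := by
            have := hpl
            rwa [hl1'] at this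
          rw [h0, h1] at heq'
          apply h.no_inv g v (g • v)
          · rw [← dist_eq_one_iff_adj]; omega
          · exact ⟨rfl, heq'.symm⟩
      · -- inside a block
        have e1 : i = q * l + ((r - 1 : ℕ) : ℤ) := by
          have : ((r - 1 : ℕ) : ℤ) = (r : ℤ) - 1 := by omega
          rw [this]; linarith
        have e2 : i + 2 = q * l + ((r + 1 : ℕ) : ℤ) := by push_cast; linarith
        rw [e2, hLblock q (r + 1) hr, e1, hLblock q (r - 1) (by omega)] at heq
        have heq' : p (r - 1) = p (r + 1) := smul_left_cancel _ heq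
        have := hpd (r - 1) (r + 1) (by omega) hr
        rw [heq', dist_self] at this
        omega
  · intro i
    obtain ⟨q, r, hr, rfl⟩ := hdecomp i
    have e : (q * l + r + l : ℤ) = (q + 1) * l + (r : ℤ) := by ring
    rw [e, hLblock q r hr.le, hLblock (q + 1) r hr.le, add_comm q 1, zpow_add, zpow_one, mul_smul]

end Pool.Agent.Lib.MP_d66326_al
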