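import Pool.Agent.Lib.MP_d66326_al.TreeAct

set_option autoImplicit false

/-!
Axes of automorphisms of trees and abelian normal subgroups.
-/

namespace Pool.Agent.Lib.MP_d66326_al

open SimpleGraph

variable {G : Type*} [Group G] {X : Type*} [MulAction G X] {T : SimpleGraph X}

/-- displacement along an axis -/
lemma TreeAct.dist_axis (h : TreeAct G X T) {L : ℤ → X} (hL : IsLine T L) {f : G} {c : ℤ}
    (hc : c ≠ 0) (hf : ∀ i, f • L i = L (i + c)) {x : X} {i : ℤ}
    (hx : ∀ k : ℤ, T.dist x (L k) = T.dist x (L i) + (i - k).natAbs) :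
    T.dist x (f • x) = c.natAbs + 2 * T.dist x (L i) := by
  have hfx : ∀ k : ℤ, T.dist (f • x) (L k) = T.dist (f • x) (L (i + c)) + (i + c - k).natAbs := by
    intro k
    have e1 : L k = f • L (k - c) := by rw [hf]; congr 1; ring
    rw [e1, h.dist_smul, hx, ← hf, h.dist_smul]
    congr 2
    ring
  have hne : i ≠ i + c := by omega
  obtain ⟨-, h2⟩ := hL.bridge h.isTree hx hfx hne
  rw [h2, ← hf i, h.dist_smul]
  have : (i - (i + c)).natAbs = c.natAbs := by omega
  omega

/-- points displaced as little as points of the axis are on the axis -/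
lemma TreeAct.mem_axis (h : TreeAct G X T) {L : ℤ → X} (hL : IsLine T L) {f : G} {c : ℤ}
    (hc : c ≠ 0) (hf : ∀ i, f • L i = L (i + c)) {x : X} (hx : T.dist x (f • x) ≤ c.natAbs) :
    ∃ i, x = L i := by
  obtain ⟨i, hi⟩ := hL.exists_proj h.isTree x
  have := h.dist_axis hL hc hf hi
  have h0 : T.dist x (L i) = 0 := by omega
  exact ⟨i, (h.isTree.connected.dist_eq_zero_iff).mp h0⟩

lemma TreeAct.natAbs_le_dist (h : TreeAct G X T) {L : ℤ → X} (hL : IsLine T L) {f : G} {c : ℤ}
    (hf : ∀ i, f • L i = L (i + c)) (x : X) : c.natAbs ≤ T.dist x (f • x) := by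
  rcases eq_or_ne c 0 with rfl | hc
  · simp
  obtain ⟨i, hi⟩ := hL.exists_proj h.isTree x
  have := h.dist_axis hL hc hf hi
  omega

/-- an automorphism mapping a line into itself acts as a translation or a reflection -/
lemma TreeAct.line_map (h : TreeAct G X T) {L : ℤ → X} (hL : IsLine T L) {g : G}
    (hg : ∀ i, ∃ j, g • L i = L j) :
    ∃ c e : ℤ, (e = 1 ∨ e = -1) ∧ ∀ i, g • L i = L (c + e * i) := by
  choose σ hσ using hg
  have hiso : ∀ i j, (σ i - σ j).natAbs = (i - j).natAbs := by
    intro i j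
    have := h.dist_smul g (L i) (L j)
    rw [hσ, hσ, hL, hL] at this
    exact this
  have h1 := hiso 1 0
  rcases (by omega : σ 1 = σ 0 + 1 ∨ σ 1 = σ 0 - 1) with h2 | h2
  · refine ⟨σ 0, 1, Or.inl rfl, fun i => ?_⟩
    rw [hσ]
    congr 1
    have h3 := hiso i 0
    have h4 := hiso i 1
    omega
  · refine ⟨σ 0, -1, Or.inr rfl, fun i => ?_⟩
    rw [hσ]
    congr 1
    have h3 := hiso i 0
    have h4 := hiso i 1
    omega

/-- elements commuting with a hyperbolic element translate its axis -/
lemma TreeAct.commute_axis (h : TreeAct G X T) {L : ℤ → X} (hL : IsLine T L) {f g : G} {l : ℤ}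
    (hl : l ≠ 0) (hf : ∀ i, f • L i = L (i + l)) (hfg : g * f = f * g) :
    ∃ c : ℤ, ∀ i, g • L i = L (i + c) := by
  have hmem : ∀ i, ∃ j, g • L i = L j := by
    intro i
    apply h.mem_axis hL hl hf
    rw [← mul_smul, ← hfg, mul_smul, h.dist_smul, hf, hL]
    omega
  obtain ⟨c, e, he, hg⟩ := h.line_map hL hmem
  refine ⟨c, ?_⟩
  rcases he with rfl | rfl
  · intro i; rw [hg]; congr 1; ring
  · exfalso
    have h1 : g • (f • L 0) = f • (g • L 0) := by rw [← mul_smul, ← mul_smul, hfg]
    rw [hf, hg, hg, hf] at h1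
    have := hL.injective h.isTree h1
    omega

/-- If an abelian normal subgroup contains an element without fixed vertex, then the group
preserves a line, on which the subgroup acts by translations. -/
lemma TreeAct.line_of_normal (h : TreeAct G X T) (N : Subgroup G) [N.Normal]
    (hN : ∀ a ∈ N, ∀ b ∈ N, a * b = b * a) {f : G} (hfN : f ∈ N) (hf : ∀ x : X, f • x ≠ x) :
    ∃ (L : ℤ → X) (l : ℤ), 0 < l ∧ IsLine T L ∧ (∀ i, f • L i = L (i + l)) ∧
      (∀ g : G, ∃ c e : ℤ, (e = 1 ∨ e = -1) ∧ ∀ i, g • L i = L (c + e * i)) ∧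
      (∀ n ∈ N, ∃ c : ℤ, ∀ i, n • L i = L (i + c)) := by
  obtain ⟨L, l, hl, hL, hfL⟩ := h.exists_axis f hf
  have hNL : ∀ n ∈ N, ∃ c : ℤ, ∀ i, n • L i = L (i + c) := fun n hn =>
    h.commute_axis hL hl.ne' hfL (hN n hn f hfN)
  refine ⟨L, l, hl, hL, hfL, ?_, hNL⟩
  intro g
  apply h.line_map hL
  have hf' : g * f * g⁻¹ ∈ N := Subgroup.Normal.conj_mem inferInstance f hfN g
  obtain ⟨c, hc⟩ := hNL _ hf'
  have hc0 : c ≠ 0 := by
    intro h0
    subst h0
    have h1 := hc 0
    simp only [add_zero] at h1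
    apply hf (g⁻¹ • L 0)
    rw [mul_smul, mul_smul] at h1
    have h2 := congrArg (fun z => g⁻¹ • z) h1
    simpa using h2
  have hlc : l.natAbs ≤ c.natAbs := by
    have h1 := h.natAbs_le_dist hL hfL (g⁻¹ • L 0)
    have h2 : T.dist (g⁻¹ • L 0) (f • g⁻¹ • L 0) = T.dist (L 0) ((g * f * g⁻¹) • L 0) := by
      rw [← h.dist_smul g (g⁻¹ • L 0), smul_inv_smul, mul_smul, mul_smul]
    rw [h2, hc, hL] at h1
    omega
  intro i
  apply h.mem_axis hL hc0 hc
  have e1 : (g * f * g⁻¹) • g • L i = g • f • L i := by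
    rw [mul_smul, mul_smul, inv_smul_smul]
  rw [e1, h.dist_smul, hfL, hL]
  omega

/-- If the subgroup `N` is abelian, normal and consists of elliptic elements and `f` has no fixed
vertex, then every element of `N` fixes long intervals of the axis of `f`. -/
lemma TreeAct.long_interval (h : TreeAct G X T) (N : Subgroup G) [N.Normal]
    (hN : ∀ a ∈ N, ∀ b ∈ N, a * b = b * a) (hell : ∀ a ∈ N, ∃ x : X, a • x = x)
    {L : ℤ → X} {l : ℤ} (hl : 0 < l) (hL : IsLine T L) {f : G} (hfL : ∀ i, f • L i = L (i + l))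
    {n : G} (hn : n ∈ N) (K : ℕ) : ∃ i : ℤ, ∀ j, i ≤ j → j ≤ i + K → n • L j = L j := by
  classical
  have hfK : ∀ (k : ℤ) (i : ℤ), f ^ k • L i = L (i + k * l) := by
    have hnat : ∀ (k : ℕ) (i : ℤ), f ^ k • L i = L (i + k * l) := by
      intro k
      induction k with
      | zero => intro i; simp
      | succ k ih =>
        intro i
        rw [pow_succ, mul_smul, hfL, ih]
        congr 1; push_cast; ring
    intro k i
    obtain ⟨m, rfl | rfl⟩ := Int.eq_nat_or_neg k
    · rw [zpow_natCast]; exact hnat m i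
    · rw [zpow_neg, zpow_natCast, inv_smul_eq_iff, hnat]
      congr 1; ring
  -- common fixed vertex of `n` and `f ^ K * n * f ^ (-K)`
  set k : ℤ := ((K + 1 : ℕ) : ℤ) with hk
  have hn' : f ^ k * n * (f ^ k)⁻¹ ∈ N := Subgroup.Normal.conj_mem inferInstance n hn (f ^ k)
  obtain ⟨x, hx⟩ := h.exists_common_fix {n, f ^ k * n * (f ^ k)⁻¹}
    (by
      intro a ha b hb
      have ha' : a ∈ N := by
        rw [Finset.mem_insert, Finset.mem_singleton] at ha
        rcases ha with rfl | rfl
        · exact hn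
        · exact hn'
      have hb' : b ∈ N := by
        rw [Finset.mem_insert, Finset.mem_singleton] at hb
        rcases hb with rfl | rfl
        · exact hn
        · exact hn'
      exact hN a ha' b hb')
    (by
      intro a ha
      apply hell
      rw [Finset.mem_insert, Finset.mem_singleton] at ha
      rcases ha with rfl | rfl
      · exact hn
      · exact hn')
  have hx1 : n • x = x := hx n (by simp)
  have hx2 : (f ^ k * n * (f ^ k)⁻¹) • x = x := hx _ (by simp)
  -- `y` is a second fixed vertex of `n`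
  set y : X := (f ^ k)⁻¹ • x with hy
  have hy1 : n • y = y := by
    rw [mul_smul, mul_smul] at hx2
    have := congrArg (fun z => (f ^ k)⁻¹ • z) hx2
    simpa [hy] using this
  obtain ⟨i, hi⟩ := hL.exists_proj h.isTree x
  have hyi : ∀ j : ℤ, T.dist y (L j) = T.dist y (L (i - k * l)) + (i - k * l - j).natAbs := by
    intro j
    have e1 : L j = (f ^ k)⁻¹ • L (j + k * l) := by
      rw [← hfK k j, inv_smul_smul]
    have e2 : L (i - k * l) = (f ^ k)⁻¹ • L i := by
      have : L i = f ^ k • L (i - k * l) := by rw [hfK]; congr 1; ring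
      rw [this, inv_smul_smul]
    rw [e1, e2, hy, h.dist_smul, h.dist_smul, hi]
    congr 2
    ring
  have hkl : 0 < k * l := by positivity
  have hne : i - k * l ≠ i := by omega
  obtain ⟨hb1, hb2⟩ := hL.bridge h.isTree hyi hi hne
  -- both ends of the interval are fixed
  have hfix1 : n • L (i - k * l) = L (i - k * l) := h.fix_between hy1 hx1 hb1
  have hfix2 : n • L i = L i := by
    obtain ⟨hc1, _⟩ := hL.bridge h.isTree hi hyi hne.symm
    exact h.fix_between hx1 hy1 hc1
  refine ⟨i - k * l, fun j hj1 hj2 => ?_⟩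
  have hKl : (K : ℤ) ≤ k * l := by
    have : (K : ℤ) ≤ k := by rw [hk]; push_cast; linarith
    nlinarith
  have hj3 : j ≤ i := by omega
  apply h.fix_between hfix1 hfix2
  rw [hL, hL, hL]
  omega

/-- the locally elliptic case: every element of `N` fixes rays of the axis of `f`,
all in the same direction -/
lemma TreeAct.common_end (h : TreeAct G X T) (N : Subgroup G) [N.Normal]
    (hN : ∀ a ∈ N, ∀ b ∈ N, a * b = b * a) (hell : ∀ a ∈ N, ∃ x : X, a • x = x)
    {L : ℤ → X} {l : ℤ} (hl : 0 < l) (hL : IsLine T L) {f : G} (hfL : ∀ i, f • L i = L (i + l)) :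
    (∀ n ∈ N, ∀ K : ℤ, ∃ i, K ≤ i ∧ n • L i = L i) ∨
    (∀ n ∈ N, ∀ K : ℤ, ∃ i, i ≤ K ∧ n • L i = L i) := by
  classical
  have hfK : ∀ (k : ℤ) (i : ℤ), f ^ k • L i = L (i + k * l) := by
    have hnat : ∀ (k : ℕ) (i : ℤ), f ^ k • L i = L (i + k * l) := by
      intro k
      induction k with
      | zero => intro i; simp
      | succ k ih =>
        intro i
        rw [pow_succ, mul_smul, hfL, ih]
        congr 1; push_cast; ring
    intro k i
    obtain ⟨m, rfl | rfl⟩ := Int.eq_nat_or_neg k
    · rw [zpow_natCast]; exact hnat m i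
    · rw [zpow_neg, zpow_natCast, inv_smul_eq_iff, hnat]
      congr 1; ring
  by_contra hcon
  push Not at hcon
  obtain ⟨⟨n, hn, K, hK⟩, ⟨n', hn', K', hK'⟩⟩ := hcon
  -- `n` fixes no `L i` with `i ≥ K`, `n'` fixes no `L i` with `i ≤ K'`
  -- conjugate `n'` so that its fixed points on the line are beyond `K`
  obtain ⟨k, hk⟩ : ∃ k : ℤ, K ≤ K' + k * l := by
    refine ⟨(K - K').natAbs, ?_⟩
    nlinarith [abs_nonneg (K - K'), le_abs_self (K - K'), Int.natCast_natAbs (K - K')]
  set n'' := f ^ k * n' * (f ^ k)⁻¹ with hn''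
  have hn''N : n'' ∈ N := Subgroup.Normal.conj_mem inferInstance n' hn' (f ^ k)
  have hK'' : ∀ i, i ≤ K' + k * l → n'' • L i ≠ L i := by
    intro i hi heq
    apply hK' (i - k * l) (by linarith)
    have e1 : L (i - k * l) = (f ^ k)⁻¹ • L i := by
      have : L i = f ^ k • L (i - k * l) := by rw [hfK]; congr 1; ring
      rw [this, inv_smul_smul]
    rw [hn'', mul_smul, mul_smul, ← e1] at heq
    have := congrArg (fun z => (f ^ k)⁻¹ • z) heq
    simpa [← e1] using this
  obtain ⟨x, hx⟩ := h.exists_common_fix {n, n''}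
    (by
      intro a ha b hb
      have ha' : a ∈ N := by
        rw [Finset.mem_insert, Finset.mem_singleton] at ha
        rcases ha with rfl | rfl
        · exact hn
        · exact hn''N
      have hb' : b ∈ N := by
        rw [Finset.mem_insert, Finset.mem_singleton] at hb
        rcases hb with rfl | rfl
        · exact hn
        · exact hn''N
      exact hN a ha' b hb')
    (by
      intro a ha
      apply hell
      rw [Finset.mem_insert, Finset.mem_singleton] at ha
      rcases ha with rfl | rfl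
      · exact hn
      · exact hn''N)
  have hx1 : n • x = x := hx n (by simp)
  have hx2 : n'' • x = x := hx _ (by simp)
  obtain ⟨i, hi⟩ := hL.exists_proj h.isTree x
  -- the projection of `x` is fixed by everything that fixes `x` and some vertex of the line
  have hproj : ∀ m ∈ N, m • x = x → m • L i = L i := by
    intro m hm hmx
    obtain ⟨j, hj⟩ := h.long_interval N hN hell hl hL hfL hm 0
    have hmj : m • L j = L j := hj j le_rfl (by simp)
    apply h.fix_between hmx hmj
    rw [hi j, hL]
  have h1 := hproj n hn hx1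
  have h2 := hproj n'' hn''N hx2
  rcases le_or_gt K i with h3 | h3
  · exact hK i h3 h1
  · exact hK'' i (by linarith) h2

/-- In the locally elliptic case, a group generated by finitely many elements of `N` and an
elliptic element `t` has a global fixed vertex. -/
lemma TreeAct.exists_fix_of_elliptic (h : TreeAct G X T) (N : Subgroup G) [N.Normal]
    (hN : ∀ a ∈ N, ∀ b ∈ N, a * b = b * a) (hell : ∀ a ∈ N, ∃ x : X, a • x = x)
    (S : Finset G) (hS : ∀ a ∈ S, a ∈ N) (R : Set G) (p : X) (hp : ∀ r ∈ R, r • p = p) :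
    ∃ q : X, (∀ a ∈ S, a • q = q) ∧ ∀ r ∈ R, r • q = q := by
  classical
  have hfix : (FixSet X (S : Set G)).Nonempty :=
    h.exists_common_fix S (fun a ha b hb => hN a (hS a ha) b (hS b hb))
      (fun a ha => hell a (hS a ha))
  obtain ⟨q, hqA, hq⟩ := (h.conv_fixSet (S : Set G)).exists_gate h.isTree hfix p
  refine ⟨q, fun a ha => hqA a ha, fun r hr => ?_⟩
  -- a common fixed vertex of `S` and `r S r⁻¹`
  obtain ⟨z, hz⟩ := h.exists_common_fix (S ∪ S.image (fun a => r * a * r⁻¹))
    (by
      intro a ha b hb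
      have key : ∀ c ∈ (S ∪ S.image (fun a => r * a * r⁻¹)), c ∈ N := by
        intro c hc
        rw [Finset.mem_union, Finset.mem_image] at hc
        rcases hc with hc | ⟨d, hd, rfl⟩
        · exact hS c hc
        · exact Subgroup.Normal.conj_mem inferInstance d (hS d hd) r
      exact hN a (key a ha) b (key b hb))
    (by
      intro c hc
      apply hell
      rw [Finset.mem_union, Finset.mem_image] at hc
      rcases hc with hc | ⟨d, hd, rfl⟩
      · exact hS c hc
      · exact Subgroup.Normal.conj_mem inferInstance d (hS d hd) r)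
  apply h.fix_gate_of_inter (hp r hr) hq (z := z)
  · intro a ha
    exact hz a (by simp [Finset.mem_coe.mp ha])
  · intro a ha
    have h1 : (r * a * r⁻¹) • z = z := by
      apply hz
      rw [Finset.coe_union, Set.mem_union]
      right
      rw [Finset.mem_coe, Finset.mem_image]
      exact ⟨a, ha, rfl⟩
    rw [mul_smul, mul_smul] at h1
    have := congrArg (fun w => r⁻¹ • w) h1
    simpa using this

end Pool.Agent.Lib.MP_d66326_al
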