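import Pool.Agent.Lib.MP_d66326_al.TreeMetric

set_option autoImplicit false

/-!
Lines (isometrically embedded copies of the integers) in trees, and projections to them.
-/

namespace Pool.Agent.Lib.MP_d66326_al

open SimpleGraph

variable {X : Type*} {T : SimpleGraph X}

/-- an isometrically embedded copy of `ℤ` -/
def IsLine (T : SimpleGraph X) (L : ℤ → X) : Prop :=
  ∀ i j : ℤ, T.dist (L i) (L j) = (i - j).natAbs

lemma IsLine.injective (hT : T.IsTree) {L : ℤ → X} (hL : IsLine T L) : Function.Injective L := by
  intro i j hij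
  have h := hL i j
  rw [hij, dist_self] at h
  omega

lemma IsLine.reverse {L : ℤ → X} (hL : IsLine T L) : IsLine T (fun i => L (-i)) := by
  intro i j
  rw [hL]
  omega

/-- betweenness is transitive -/
lemma between_trans (hT : T.IsTree) {a w m y : X} (h1 : T.dist a w + T.dist w m = T.dist a m)
    (h2 : T.dist a m + T.dist m y = T.dist a y) : T.dist a w + T.dist w y = T.dist a y := by
  have h3 : T.dist w y ≤ T.dist w m + T.dist m y := hT.connected.dist_triangle
  have h4 : T.dist a y ≤ T.dist a w + T.dist w y := hT.connected.dist_triangle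
  omega

lemma between_symm {a w m : X} (h1 : T.dist a w + T.dist w m = T.dist a m) :
    T.dist m w + T.dist w a = T.dist m a := by
  have h1' : T.dist w m = T.dist m w := dist_comm
  have h2' : T.dist a w = T.dist w a := dist_comm
  have h3' : T.dist a m = T.dist m a := dist_comm
  omega

/-- a point between two points of a line is on the line -/
lemma IsLine.between {L : ℤ → X} (hT : T.IsTree) (hL : IsLine T L) {i j : ℤ} {m : X}
    (hm : T.dist (L i) m + T.dist m (L j) = T.dist (L i) (L j)) :
    ∃ k : ℤ, m = L k ∧ (i - k).natAbs + (k - j).natAbs = (i - j).natAbs := by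
  have hij := hL i j
  set d := T.dist (L i) m with hd
  rcases le_total i j with h | h
  · refine ⟨i + d, ?_, by omega⟩
    apply between_unique hT (x := L i) (y := L j) hm
    · rw [hL, hL, hL]; omega
    · rw [hL]; omega
  · refine ⟨i - d, ?_, by omega⟩
    apply between_unique hT (x := L i) (y := L j) hm
    · rw [hL, hL, hL]; omega
    · rw [hL]; omega

/-- projection to a line -/
lemma IsLine.exists_proj {L : ℤ → X} (hT : T.IsTree) (hL : IsLine T L) (x : X) :
    ∃ i : ℤ, ∀ j : ℤ, T.dist x (L j) = T.dist x (L i) + (i - j).natAbs := by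
  obtain ⟨i, hi⟩ : ∃ i : ℤ, ∀ j : ℤ, T.dist x (L i) ≤ T.dist x (L j) := by
    classical
    have hex : ∃ n : ℕ, ∃ i : ℤ, T.dist x (L i) = n := ⟨_, 0, rfl⟩
    obtain ⟨i, hi⟩ := Nat.find_spec hex
    refine ⟨i, fun j => ?_⟩
    rw [hi]
    exact Nat.find_min' hex ⟨j, rfl⟩
  refine ⟨i, fun j => ?_⟩
  obtain ⟨m, h1, h2, h3⟩ := exists_median hT x (L i) (L j)
  obtain ⟨k, rfl, hk⟩ := hL.between hT h3
  have h4 := hi k
  have h5 : T.dist (L k) (L i) = 0 := by omega
  have h6 : L k = L i := (hT.connected.dist_eq_zero_iff).mp h5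
  rw [h6] at h2
  rw [hL] at h2
  omega

/-- if the projections of `x` and `y` to a line differ, the geodesic runs along the line -/
lemma IsLine.bridge {L : ℤ → X} (hT : T.IsTree) (hL : IsLine T L) {x y : X} {i j : ℤ}
    (hx : ∀ k : ℤ, T.dist x (L k) = T.dist x (L i) + (i - k).natAbs)
    (hy : ∀ k : ℤ, T.dist y (L k) = T.dist y (L j) + (j - k).natAbs) (hij : i ≠ j) :
    T.dist x (L i) + T.dist (L i) y = T.dist x y ∧
    T.dist x y = T.dist x (L i) + (i - j).natAbs + T.dist y (L j) := by
  obtain ⟨m, h1, h2, h3⟩ := exists_median hT x y (L i)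
  -- the median is `L i`
  have hm : T.dist m (L i) = 0 := by
    by_contra hne
    obtain ⟨w, hw1, hw2⟩ := exists_between hT (L i) m 1 (by rw [dist_comm]; omega)
    have h2' := between_symm h2
    have h3' := between_symm h3
    have hwx := between_trans hT hw2 h2'
    have hwy := between_trans hT hw2 h3'
    obtain ⟨k, hk1, hk2⟩ : ∃ k : ℤ, (i - k).natAbs = 1 ∧ (j - i).natAbs = 1 + (j - k).natAbs := by
      rcases lt_or_gt_of_ne hij with h | h
      · exact ⟨i + 1, by omega, by omega⟩
      · exact ⟨i - 1, by omega, by omega⟩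
    have hwk : w = L k := by
      apply between_unique hT (x := L i) (y := y) hwy
      · have e1 := hy k
        have e2 := hy i
        have e3 : T.dist (L k) y = T.dist y (L k) := dist_comm
        have e4 : T.dist (L i) y = T.dist y (L i) := dist_comm
        rw [hL]; omega
      · rw [hL]; omega
    have e1 := hx k
    have e2 := hx i
    have e3 : T.dist (L k) x = T.dist x (L k) := dist_comm
    have e4 : T.dist (L i) x = T.dist x (L i) := dist_comm
    rw [hwk] at hwx
    have e5 := hL i k
    omega
  have hmi : m = L i := (hT.connected.dist_eq_zero_iff).mp hm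
  subst hmi
  have e2 := hy i
  have e4 : T.dist (L i) y = T.dist y (L i) := dist_comm
  refine ⟨h1, ?_⟩
  omega

end Pool.Agent.Lib.MP_d66326_al
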