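import Mathlib

set_option autoImplicit false

/-!
Metric facts about (simplicial) trees, stated with `SimpleGraph.dist`.
-/

namespace Pool.Agent.Lib.MP_d66326_al

open SimpleGraph

variable {X : Type*} {T : SimpleGraph X}

/-- every path in a tree is a geodesic -/
lemma path_length_eq_dist (hT : T.IsTree) {x y : X} (p : T.Walk x y) (hp : p.IsPath) :
    p.length = T.dist x y := by
  obtain ⟨q, hq, hql⟩ := hT.connected.exists_path_of_dist x y
  have : p = q := (hT.existsUnique_path x y).unique hp hq
  rw [this, hql]

/-- points on a geodesic are determined by their distance to the origin -/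
lemma between_unique (hT : T.IsTree) {x y z z' : X}
    (h1 : T.dist x z + T.dist z y = T.dist x y) (h2 : T.dist x z' + T.dist z' y = T.dist x y)
    (h3 : T.dist x z = T.dist x z') : z = z' := by
  obtain ⟨p1, hp1, hl1⟩ := hT.connected.exists_path_of_dist x z
  obtain ⟨p2, hp2, hl2⟩ := hT.connected.exists_path_of_dist z y
  obtain ⟨q1, hq1, hm1⟩ := hT.connected.exists_path_of_dist x z'
  obtain ⟨q2, hq2, hm2⟩ := hT.connected.exists_path_of_dist z' y
  have hP : (p1.append p2).IsPath := by
    apply Walk.isPath_of_length_eq_dist
    rw [Walk.length_append, hl1, hl2, h1]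
  have hQ : (q1.append q2).IsPath := by
    apply Walk.isPath_of_length_eq_dist
    rw [Walk.length_append, hm1, hm2, h2]
  have hPQ : p1.append p2 = q1.append q2 := (hT.existsUnique_path x y).unique hP hQ
  have e1 : (p1.append p2).getVert p1.length = z := by
    rw [Walk.getVert_append]; simp
  have e2 : (q1.append q2).getVert q1.length = z' := by
    rw [Walk.getVert_append]; simp
  rw [← e1, ← e2, hPQ, hl1, hm1, h3]

/-- existence of medians -/
lemma exists_median (hT : T.IsTree) (x y z : X) :
    ∃ m, T.dist x m + T.dist m y = T.dist x y ∧ T.dist x m + T.dist m z = T.dist x z ∧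
      T.dist y m + T.dist m z = T.dist y z := by
  classical
  obtain ⟨P, hP, hPl⟩ := hT.connected.exists_path_of_dist x y
  obtain ⟨m, hm, hmin⟩ := Finset.exists_min_image P.support.toFinset (fun w => T.dist z w)
    ⟨x, by simp⟩
  rw [List.mem_toFinset] at hm
  have hmin' : ∀ w ∈ P.support, T.dist z m ≤ T.dist z w := fun w hw => hmin w (by simpa using hw)
  obtain ⟨R, hR, hRl⟩ := hT.connected.exists_path_of_dist m z
  have key : ∀ {w : X} (Q : T.Walk w m), Q.IsPath → Q.support ⊆ P.support →
      T.dist w m + T.dist m z = T.dist w z := by
    intro w Q hQ hsub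
    have hpath : (Q.append R).IsPath := by
      rw [hT.isAcyclic.isPath_iff_isTrail, Walk.isTrail_append]
      refine ⟨hQ.isTrail, hR.isTrail, ?_⟩
      intro e he1 he2
      induction e using Sym2.ind with
      | _ a b =>
        have ha1 := hsub (Q.fst_mem_support_of_mem_edges he1)
        have hb1 := hsub (Q.snd_mem_support_of_mem_edges he1)
        have ha2 := R.fst_mem_support_of_mem_edges he2
        have hb2 := R.snd_mem_support_of_mem_edges he2
        have hadj := Walk.adj_of_mem_edges _ he1
        have aux : ∀ c ∈ R.support, c ∈ P.support → c = m := by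
          intro c hc hc'
          have h1 := hmin' c hc'
          obtain ⟨r1, r2, _, _, hr⟩ := hR.mem_support_iff_exists_append.mp hc
          have hl : R.length = r1.length + r2.length := by rw [hr, Walk.length_append]
          have h2 : T.dist m c ≤ r1.length := dist_le r1
          have h3 : T.dist c z ≤ r2.length := dist_le r2
          have h4 : T.dist z m = T.dist m z := dist_comm
          have h5 : T.dist z c = T.dist c z := dist_comm
          have h6 : r1.length = T.dist m c := path_length_eq_dist hT r1 (by
            rw [hr] at hR; exact hR.of_append_left)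
          have h7 : T.dist m c = 0 := by omega
          exact ((hT.connected.dist_eq_zero_iff).mp h7).symm
        have := aux a ha2 ha1
        have := aux b hb2 hb1
        subst_vars
        exact hadj.ne rfl
    have := path_length_eq_dist hT _ hpath
    rw [Walk.length_append, hRl, path_length_eq_dist hT Q hQ] at this
    exact this
  obtain ⟨p1, p2, hp1, hp2, hp⟩ := hP.mem_support_iff_exists_append.mp hm
  refine ⟨m, ?_, key p1 hp1 ?_, ?_⟩
  · rw [← path_length_eq_dist hT p1 hp1, ← path_length_eq_dist hT p2 hp2, ← hPl, hp,
      Walk.length_append]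
  · intro w hw
    rw [hp, Walk.mem_support_append_iff]; exact Or.inl hw
  · have := key p2.reverse hp2.reverse ?_
    · exact this
    · intro w hw
      rw [Walk.support_reverse, List.mem_reverse] at hw
      rw [hp, Walk.mem_support_append_iff]; exact Or.inr hw

/-- intermediate points on geodesics exist -/
lemma exists_between (hT : T.IsTree) (x y : X) (k : ℕ) (hk : k ≤ T.dist x y) :
    ∃ z, T.dist x z = k ∧ T.dist x z + T.dist z y = T.dist x y := by
  obtain ⟨P, hP, hPl⟩ := hT.connected.exists_path_of_dist x y
  refine ⟨P.getVert k, ?_⟩
  have h1 : T.dist x (P.getVert k) ≤ k := by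
    have := dist_le (P.take k)
    rw [Walk.take_length] at this
    omega
  have h2 : T.dist (P.getVert k) y ≤ P.length - k := by
    have := dist_le (P.drop k)
    rw [Walk.drop_length] at this
    exact this
  have h3 : T.dist x y ≤ T.dist x (P.getVert k) + T.dist (P.getVert k) y :=
    hT.connected.dist_triangle
  omega

end Pool.Agent.Lib.MP_d66326_al
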